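import Pool.Agent.V8H27.NP.Nc

/-!
# All symmetric powers and all twists
-/

set_option autoImplicit false

namespace Pool.Agent.V8H27.NP

open Filter Topology Complex Set Pool.Agent.N210.FV Pool.Agent.N210.FW Pool.Agent.N845.SP

/-! ### exponents of the gamma factors -/

/-- exponents -/
def gx (e₁ e₂ k f : ℕ) : ℤ × ℤ :=
  (((Finset.range (k + 1)).filter fun i => ((k - i) * e₁ + i * e₂ + f) % 2 = 0).card,
    ((Finset.range (k + 1)).filter fun i => ¬ ((k - i) * e₁ + i * e₂ + f) % 2 = 0).card)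

theorem gx_add (e₁ e₂ k f : ℕ) : (gx e₁ e₂ k f).1 + (gx e₁ e₂ k f).2 = (k : ℤ) + 1 := by
  unfold gx
  have := Finset.card_filter_add_card_filter_not (s := Finset.range (k + 1))
    (fun i => ((k - i) * e₁ + i * e₂ + f) % 2 = 0)
  rw [Finset.card_range] at this
  simp only
  exact_mod_cast this

theorem gx_sub (e₁ e₂ k f : ℕ) : (gx e₁ e₂ k f).1 - (gx e₁ e₂ k f).2 = sg e₁ e₂ k f := by
  unfold gx sg
  simp only
  rw [← Finset.sum_filter_add_sum_filter_not (Finset.range (k + 1))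
    (fun i => ((k - i) * e₁ + i * e₂ + f) % 2 = 0)]
  have h1 : ∀ i ∈ (Finset.range (k + 1)).filter (fun i => ((k - i) * e₁ + i * e₂ + f) % 2 = 0),
      ((-1 : ℤ)) ^ ((k - i) * e₁ + i * e₂ + f) = 1 := by
    intro i hi
    rw [Finset.mem_filter] at hi
    rw [neg_one_pow_eq_pow_mod_two, hi.2, pow_zero]
  have h2 : ∀ i ∈ (Finset.range (k + 1)).filter (fun i => ¬ ((k - i) * e₁ + i * e₂ + f) % 2 = 0),
      ((-1 : ℤ)) ^ ((k - i) * e₁ + i * e₂ + f) = -1 := by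
    intro i hi
    rw [Finset.mem_filter] at hi
    have : ((k - i) * e₁ + i * e₂ + f) % 2 = 1 := by omega
    rw [neg_one_pow_eq_pow_mod_two, this, pow_one]
  rw [Finset.sum_congr rfl h1, Finset.sum_congr rfl h2]
  simp
  ring

theorem gx_sum {ι : Type*} (J : Finset ι) {e₁ e₂ k f : ℕ} {c : ι → ℤ} {κ φ : ι → ℕ}
    (h1 : (k : ℤ) + 1 = ∑ j ∈ J, c j * ((κ j : ℤ) + 1))
    (h2 : sg e₁ e₂ k f = ∑ j ∈ J, c j * sg e₁ e₂ (κ j) (φ j)) :
    ∑ j ∈ J, c j • gx e₁ e₂ (κ j) (φ j) = gx e₁ e₂ k f := by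
  have a1 : (∑ j ∈ J, c j • gx e₁ e₂ (κ j) (φ j)).1 = ∑ j ∈ J, c j * (gx e₁ e₂ (κ j) (φ j)).1 := by
    rw [Prod.fst_sum]
    rfl
  have a2 : (∑ j ∈ J, c j • gx e₁ e₂ (κ j) (φ j)).2 = ∑ j ∈ J, c j * (gx e₁ e₂ (κ j) (φ j)).2 := by
    rw [Prod.snd_sum]
    rfl
  have b1 : ∑ j ∈ J, c j * (gx e₁ e₂ (κ j) (φ j)).1 + ∑ j ∈ J, c j * (gx e₁ e₂ (κ j) (φ j)).2 =
      (gx e₁ e₂ k f).1 + (gx e₁ e₂ k f).2 := by
    rw [gx_add, h1, ← Finset.sum_add_distrib]
    refine Finset.sum_congr rfl fun j _ => ?_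
    rw [← gx_add e₁ e₂ (κ j) (φ j)]
    ring
  have b2 : ∑ j ∈ J, c j * (gx e₁ e₂ (κ j) (φ j)).1 - ∑ j ∈ J, c j * (gx e₁ e₂ (κ j) (φ j)).2 =
      (gx e₁ e₂ k f).1 - (gx e₁ e₂ k f).2 := by
    rw [gx_sub, h2, ← Finset.sum_sub_distrib]
    refine Finset.sum_congr rfl fun j _ => ?_
    rw [← gx_sub e₁ e₂ (κ j) (φ j)]
    ring
  refine Prod.ext ?_ ?_
  · rw [a1]
    linarith
  · rw [a2]
    linarith

theorem list_prod_range {M : Type*} [CommMonoid M] (f : ℕ → M) (n : ℕ) :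
    ((List.range n).map f).prod = ∏ i ∈ Finset.range n, f i := by
  induction n with
  | zero => simp
  | succ n ih =>
    rw [List.range_succ, List.map_append, List.prod_append, ih, Finset.prod_range_succ]
    simp

theorem gi_gam0 (e₁ e₂ k f : ℕ) (s : ℂ) :
    gi (gam 0 e₁ e₂ k f) s = Gm 0 s ^ ((gx e₁ e₂ k f).1.toNat) * Gm 1 s ^ ((gx e₁ e₂ k f).2.toNat) := by
  unfold gi gam gx
  rw [List.map_map, list_prod_range]
  simp only [Int.toNat_natCast]
  rw [← Finset.prod_filter_mul_prod_filter_not (Finset.range (k + 1))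
    (fun i => ((k - i) * e₁ + i * e₂ + f) % 2 = 0)]
  congr 1
  · rw [← Finset.prod_const]
    refine Finset.prod_congr rfl fun i hi => ?_
    rw [Finset.mem_filter] at hi
    simp only [Function.comp_apply, hi.2, Gm]
    simp
  · rw [← Finset.prod_const]
    refine Finset.prod_congr rfl fun i hi => ?_
    rw [Finset.mem_filter] at hi
    have : ((k - i) * e₁ + i * e₂ + f) % 2 = 1 := by omega
    simp only [Function.comp_apply, this, Gm]
    simp

/-! ### Euler products -/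

/-- logarithm of the inverse Euler factor -/
noncomputable def Lgf (θ u : ℂ) (k : ℕ) (z : ℂ) : ℂ :=
  ∑ i ∈ Finset.range (k + 1), log (1 - θ * u ^ ((k : ℤ) - 2 * i) * z)

theorem Lgf_hasSum {θ u : ℂ} (hθ : ‖θ‖ ≤ 1) (hu : ‖u‖ = 1) (k : ℕ) {z : ℂ} (hz : ‖z‖ < 1) :
    HasSum (fun n : ℕ => θ ^ n * ch k (u ^ n) * z ^ n / n) (-(Lgf θ u k z)) := by
  unfold Lgf
  rw [← Finset.sum_neg_distrib]
  have h1 : ∀ i ∈ Finset.range (k + 1),
      HasSum (fun n : ℕ => (θ * u ^ ((k : ℤ) - 2 * i) * z) ^ n / n)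
      (-log (1 - θ * u ^ ((k : ℤ) - 2 * i) * z)) := fun i _ =>
    hasSum_taylorSeries_neg_log (by
      rw [norm_mul, norm_mul, norm_zpow, hu, one_zpow, mul_one]
      calc ‖θ‖ * ‖z‖ ≤ 1 * ‖z‖ := by gcongr
        _ < 1 := by linarith)
  refine (hasSum_sum h1).congr_fun ?_
  intro n
  unfold ch
  rw [Finset.mul_sum, Finset.sum_mul, Finset.sum_div]
  refine Finset.sum_congr rfl fun i _ => ?_
  rw [mul_pow, mul_pow, ← zpow_natCast (u ^ ((k : ℤ) - 2 * i)), ← zpow_mul, ← zpow_natCast u n,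
    ← zpow_mul, mul_comm ((k : ℤ) - 2 * i)]

theorem Lgf_rel {ι : Type*} (J : Finset ι) {κ : ι → ℕ} {c : ι → ℤ} {θ u : ℂ} (hθ : ‖θ‖ ≤ 1)
    (hu : ‖u‖ = 1) {k : ℕ}
    (hc : ∀ n : ℕ, 1 ≤ n → ch k (u ^ n) = ∑ j ∈ J, (c j : ℂ) * ch (κ j) (u ^ n)) {z : ℂ}
    (hz : ‖z‖ < 1) : Lgf θ u k z = ∑ j ∈ J, (c j : ℂ) * Lgf θ u (κ j) z := by
  have h1 := Lgf_hasSum hθ hu k hz
  have h2 : HasSum (fun n : ℕ => ∑ j ∈ J, (c j : ℂ) *
      (θ ^ n * ch (κ j) (u ^ n) * z ^ n / n)) (∑ j ∈ J, (c j : ℂ) * (-(Lgf θ u (κ j) z))) :=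
    hasSum_sum fun j _ => (Lgf_hasSum hθ hu (κ j) hz).mul_left _
  have h3 : (fun n : ℕ => θ ^ n * ch k (u ^ n) * z ^ n / n) =
      fun n : ℕ => ∑ j ∈ J, (c j : ℂ) * (θ ^ n * ch (κ j) (u ^ n) * z ^ n / n) := by
    funext n
    rcases Nat.eq_zero_or_pos n with h0 | h0
    · subst h0
      simp
    · rw [hc n h0, Finset.mul_sum, Finset.sum_mul, Finset.sum_div]
      refine Finset.sum_congr rfl fun j _ => ?_
      ring
  rw [h3] at h1
  have h4 := h1.unique h2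
  simp only [mul_neg, Finset.sum_neg_distrib] at h4
  exact neg_injective h4

/-- an Euler product with parameters of norm at most one does not vanish -/
theorem euler_ne2 {S : Finset ℕ} {b : ℕ → ℕ → ℂ} {k : ℕ}
    (hb : ∀ p : ℕ, p.Prime → p ∉ S → ∀ i ∈ Finset.range (k + 1), ‖b p i‖ ≤ 1)
    {s : ℂ} (hs : 1 < s.re) {L : ℂ} (h : Tendsto (fun X : ℕ =>
    ∏ p ∈ (Finset.range X).filter (fun p => p.Prime ∧ p ∉ S),
      ∏ i ∈ Finset.range (k + 1), (1 - b p i * (p : ℂ) ^ (-s))⁻¹) atTop (𝓝 L)) : L ≠ 0 := by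
  have hsum : Summable fun n : ℕ => (n : ℝ) ^ (-s.re) := by
    have := Real.summable_nat_rpow (p := -s.re)
    rw [this]
    linarith
  set C : ℝ := ∑' n : ℕ, (n : ℝ) ^ (-s.re) with hC
  have h1 : ∀ X : ℕ, Real.exp (-((k + 1 : ℕ) * C)) ≤
      ‖∏ p ∈ (Finset.range X).filter (fun p => p.Prime ∧ p ∉ S),
        ∏ i ∈ Finset.range (k + 1), (1 - b p i * (p : ℂ) ^ (-s))⁻¹‖ := by
    intro X
    have h2 : ∀ p ∈ (Finset.range X).filter (fun p => p.Prime ∧ p ∉ S),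
        Real.exp (-((k + 1 : ℕ) * (p : ℝ) ^ (-s.re))) ≤
          ‖∏ i ∈ Finset.range (k + 1), (1 - b p i * (p : ℂ) ^ (-s))⁻¹‖ := by
      intro p hp
      rw [Finset.mem_filter] at hp
      obtain ⟨-, hpp, hpS⟩ := hp
      have hlt : (p : ℝ) ^ (-s.re) < 1 :=
        Real.rpow_lt_one_of_one_lt_of_neg (by exact_mod_cast hpp.one_lt) (by linarith)
      have h3 : ∀ i ∈ Finset.range (k + 1), Real.exp (-(p : ℝ) ^ (-s.re)) ≤
          ‖(1 - b p i * (p : ℂ) ^ (-s))⁻¹‖ := by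
        intro i hi
        have hbn : ‖b p i * (p : ℂ) ^ (-s)‖ ≤ (p : ℝ) ^ (-s.re) := by
          rw [norm_mul, pz_norm hpp]
          calc ‖b p i‖ * (p : ℝ) ^ (-s.re) ≤ 1 * (p : ℝ) ^ (-s.re) := by
                have := hb p hpp hpS i hi
                gcongr
            _ = _ := one_mul _
        have h4 : ‖1 - b p i * (p : ℂ) ^ (-s)‖ ≤ Real.exp ((p : ℝ) ^ (-s.re)) := by
          refine (norm_sub_le _ _).trans ?_
          rw [norm_one]
          have := Real.add_one_le_exp ((p : ℝ) ^ (-s.re))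
          linarith
        have h5 : 0 < ‖1 - b p i * (p : ℂ) ^ (-s)‖ :=
          norm_pos_iff.2 (fac_ne (hbn.trans_lt hlt))
        rw [norm_inv, Real.exp_neg]
        exact inv_anti₀ h5 h4
      rw [norm_prod]
      calc Real.exp (-((k + 1 : ℕ) * (p : ℝ) ^ (-s.re))) =
          ∏ i ∈ Finset.range (k + 1), Real.exp (-(p : ℝ) ^ (-s.re)) := by
            rw [Finset.prod_const, Finset.card_range, ← Real.exp_nat_mul]
            congr 1
            ring
        _ ≤ _ := Finset.prod_le_prod (fun _ _ => (Real.exp_pos _).le) h3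
    rw [norm_prod]
    calc Real.exp (-((k + 1 : ℕ) * C)) ≤
        ∏ p ∈ (Finset.range X).filter (fun p => p.Prime ∧ p ∉ S),
          Real.exp (-((k + 1 : ℕ) * (p : ℝ) ^ (-s.re))) := by
          rw [← Real.exp_sum, Real.exp_le_exp, Finset.sum_neg_distrib, neg_le_neg_iff,
            ← Finset.mul_sum]
          refine mul_le_mul_of_nonneg_left ?_ (by positivity)
          exact hsum.sum_le_tsum _ fun n _ => by positivity
      _ ≤ _ := Finset.prod_le_prod (fun _ _ => (Real.exp_pos _).le) h2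
  have h2 := ge_of_tendsto' h.norm h1
  intro h0
  rw [h0, norm_zero] at h2
  exact absurd h2 (not_le.2 (Real.exp_pos _))

/-- logarithm of the inverse Euler factor of `Sym^k π ⊗ χ` -/
noncomputable def Ep (α β : ℕ → ℂ) (k : ℕ) {q : ℕ} (χ : DirichletCharacter ℂ q) (p : ℕ) (s : ℂ) : ℂ :=
  ∑ i ∈ Finset.range (k + 1), log (1 - par α β k χ p i * (p : ℂ) ^ (-s))

/-- the same for the contragredient -/
noncomputable def Ed (α β : ℕ → ℂ) (k : ℕ) {q : ℕ} (χ : DirichletCharacter ℂ q) (p : ℕ) (s : ℂ) : ℂ :=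
  ∑ i ∈ Finset.range (k + 1), log (1 - (par α β k χ p i)⁻¹ * (p : ℂ) ^ (-s))

section

variable {S : Finset ℕ} {α β : ℕ → ℂ} {M : ℕ} [NeZero M] {ω : DirichletCharacter ℂ M}

theorem chi_le {q : ℕ} (χ : DirichletCharacter ℂ q) (p : ℕ) : ‖χ p‖ ≤ 1 :=
  DirichletCharacter.norm_le_one χ _

theorem th_le (h : Dat S α β ω) {q : ℕ} (χ : DirichletCharacter ℂ q) {p : ℕ} (hp : p.Prime)
    (hpS : p ∉ S) (k : ℕ) : ‖χ p * sq ω p ^ k‖ ≤ 1 := by
  rw [norm_mul, norm_pow, h.sq_norm hp hpS, one_pow, mul_one]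
  exact chi_le χ p

theorem th_inv_le (h : Dat S α β ω) {q : ℕ} (χ : DirichletCharacter ℂ q) {p : ℕ} (hp : p.Prime)
    (hpS : p ∉ S) (k : ℕ) : ‖(χ p * sq ω p ^ k)⁻¹‖ ≤ 1 := by
  rw [norm_inv, norm_mul, norm_pow, h.sq_norm hp hpS, one_pow, mul_one]
  by_cases h0 : IsUnit ((p : ℕ) : ZMod q)
  · obtain ⟨u, hu⟩ := h0
    rw [← hu, DirichletCharacter.unit_norm_eq_one χ u, inv_one]
  · rw [MulChar.map_nonunit χ h0, norm_zero, inv_zero]
    norm_num

theorem Ep_eq (h : Dat S α β ω) {q : ℕ} (χ : DirichletCharacter ℂ q) {p : ℕ} (hp : p.Prime)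
    (hpS : p ∉ S) (k : ℕ) (s : ℂ) :
    Ep α β k χ p s = Lgf (χ p * sq ω p ^ k) (nm α ω p) k ((p : ℂ) ^ (-s)) := by
  unfold Ep Lgf
  refine Finset.sum_congr rfl fun i hi => ?_
  rw [Finset.mem_range] at hi
  rw [h.par_eq χ hp hpS (by omega)]
  rfl

theorem Ed_eq (h : Dat S α β ω) {q : ℕ} (χ : DirichletCharacter ℂ q) {p : ℕ} (hp : p.Prime)
    (hpS : p ∉ S) (k : ℕ) (s : ℂ) :
    Ed α β k χ p s = Lgf (χ p * sq ω p ^ k)⁻¹ (nm α ω p)⁻¹ k ((p : ℂ) ^ (-s)) := by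
  unfold Ed Lgf
  refine Finset.sum_congr rfl fun i hi => ?_
  rw [Finset.mem_range] at hi
  rw [h.par_eq χ hp hpS (by omega), mul_inv, inv_zpow]
  rfl

theorem par_norm (h : Dat S α β ω) {q : ℕ} (χ : DirichletCharacter ℂ q) {p : ℕ} (hp : p.Prime)
    (hpS : p ∉ S) (hn : ‖nm α ω p‖ = 1) {k i : ℕ} (hi : i ∈ Finset.range (k + 1)) :
    ‖par α β k χ p i‖ ≤ 1 ∧ ‖(par α β k χ p i)⁻¹‖ ≤ 1 := by
  rw [Finset.mem_range] at hi
  have hb := bs_norm hn k i
  rw [h.par_eq χ hp hpS (by omega)]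
  constructor
  · rw [norm_mul, hb, mul_one]
    exact th_le h χ hp hpS k
  · rw [mul_inv (χ p * sq ω p ^ k), norm_mul, norm_inv (bs (nm α ω) k p i), hb, inv_one, mul_one]
    exact th_inv_le h χ hp hpS k

theorem z_lt {p : ℕ} (hp : p.Prime) {s : ℂ} (hs : 1 < s.re) : ‖(p : ℂ) ^ (-s)‖ < 1 := by
  rw [pz_norm hp]
  exact Real.rpow_lt_one_of_one_lt_of_neg (by exact_mod_cast hp.one_lt) (by linarith)

theorem exp_log_prod {b : ℕ → ℂ} {n : ℕ} {z : ℂ} (hz : ‖z‖ < 1)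
    (hb : ∀ i ∈ Finset.range n, ‖b i‖ ≤ 1) :
    exp (-(∑ i ∈ Finset.range n, log (1 - b i * z))) = ∏ i ∈ Finset.range n, (1 - b i * z)⁻¹ := by
  rw [← Finset.sum_neg_distrib, exp_sum]
  refine Finset.prod_congr rfl fun i hi => ?_
  have h1 : ‖b i * z‖ < 1 := by
    rw [norm_mul]
    calc ‖b i‖ * ‖z‖ ≤ 1 * ‖z‖ := by
          have := hb i hi
          gcongr
      _ < 1 := by linarith
  rw [exp_neg, exp_log (fac_ne h1)]

theorem TwL.toNc (h : Dat S α β ω) (hn : ∀ p : ℕ, p.Prime → p ∉ S → ‖nm α ω p‖ = 1)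
    {e₁ e₂ k q : ℕ} {χ : DirichletCharacter ℂ q} {N D N' D' : ℂ → ℂ}
    (hL : TwL S α β 0 e₁ e₂ k χ N D N' D') {Q : Finset ℕ} (hQ : S ∪ q.primeFactors ⊆ Q) :
    Nc S Q (Ep α β k χ) (Ed α β k χ) (gx e₁ e₂ k (pc χ)) N D N' D' := by
  refine ⟨hL.diffN, hL.diffD, hL.diffN', hL.diffD', hL.order, fun s hs h0 => ?_, hL.ne,
    fun s hs h0 => ?_, hL.ne', fun s hs => ?_, fun s hs => ?_, ?_⟩
  · have h1 := euler_ne2 (fun p hp hpS i hi => (par_norm h χ hp hpS (hn p hp hpS) hi).1) hs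
      (hL.euler s hs)
    apply h1
    rw [h0, zero_div]
  · have h1 := euler_ne2 (fun p hp hpS i hi => (par_norm h χ hp hpS (hn p hp hpS) hi).2) hs
      (hL.euler' s hs)
    apply h1
    rw [h0, zero_div]
  · refine (hL.euler s hs).congr fun X => ?_
    refine Finset.prod_congr rfl fun p hp => ?_
    rw [Finset.mem_filter] at hp
    unfold Ep
    rw [exp_log_prod (z_lt hp.2.1 hs) fun i hi =>
      (par_norm h χ hp.2.1 hp.2.2 (hn p hp.2.1 hp.2.2) hi).1]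
  · refine (hL.euler' s hs).congr fun X => ?_
    refine Finset.prod_congr rfl fun p hp => ?_
    rw [Finset.mem_filter] at hp
    unfold Ed
    rw [exp_log_prod (b := fun i => (par α β k χ p i)⁻¹) (z_lt hp.2.1 hs) fun i hi =>
      (par_norm h χ hp.2.1 hp.2.2 (hn p hp.2.1 hp.2.2) hi).2]
  · obtain ⟨l, l', m, m', A, ε, hA, hε, hl, hf⟩ := hL.fe
    rw [neg_zero] at hf
    simp only [gi_gam0] at hf
    refine ⟨(gx e₁ e₂ k (pc χ)).1.toNat, 0, (gx e₁ e₂ k (pc χ)).2.toNat, 0, l, l', m, m', A, ε,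
      ?_, ?_, hA, hε, fun x hx => ⟨(hl x hx).1, hQ (hl x hx).2⟩, fun s => ?_⟩
    · simp [gx]
    · simp [gx]
    · simp only [pow_zero, mul_one]
      exact hf s

theorem Nc.toTwL (h : Dat S α β ω) (hn : ∀ p : ℕ, p.Prime → p ∉ S → ‖nm α ω p‖ = 1)
    {e₁ e₂ k q : ℕ} {χ : DirichletCharacter ℂ q} {N D N' D' : ℂ → ℂ}
    (hL : Nc S (S ∪ q.primeFactors) (Ep α β k χ) (Ed α β k χ) (gx e₁ e₂ k (pc χ)) N D N' D') :
    TwL S α β 0 e₁ e₂ k χ N D N' D' := by
  refine ⟨hL.diffN, hL.diffD, hL.diffN', hL.diffD', hL.order, hL.neD, hL.neD', fun s hs => ?_,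
    fun s hs => ?_, ?_⟩
  · refine (hL.euler s hs).congr fun X => ?_
    refine Finset.prod_congr rfl fun p hp => ?_
    rw [Finset.mem_filter] at hp
    unfold Ep
    rw [exp_log_prod (z_lt hp.2.1 hs) fun i hi =>
      (par_norm h χ hp.2.1 hp.2.2 (hn p hp.2.1 hp.2.2) hi).1]
  · refine (hL.euler' s hs).congr fun X => ?_
    refine Finset.prod_congr rfl fun p hp => ?_
    rw [Finset.mem_filter] at hp
    unfold Ed
    rw [exp_log_prod (b := fun i => (par α β k χ p i)⁻¹) (z_lt hp.2.1 hs) fun i hi =>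
      (par_norm h χ hp.2.1 hp.2.2 (hn p hp.2.1 hp.2.2) hi).2]
  · obtain ⟨l, l', m, m', A, ε, hA, hε, hl, hf⟩ := hL.fe' (x := (gx e₁ e₂ k (pc χ)).1.toNat)
      (y := (gx e₁ e₂ k (pc χ)).2.toNat) (by simp [gx]) (by simp [gx])
    refine ⟨l, l', m, m', A, ε, hA, hε, hl, fun s => ?_⟩
    rw [neg_zero, gi_gam0, gi_gam0]
    exact hf s

/-- **all symmetric powers and all twists** -/
theorem Dat.core (h : Dat S α β ω) {e₁ e₂ K : ℕ} (hpar : ω (-1) = (-1) ^ (e₁ + e₂))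
    (hyp : AllTw S α β 0 e₁ e₂ K) (W : Finset ℝ) (hW : 2 * W.card ≤ K + 1)
    (hcl : ∀ p : ℕ, p.Prime → p ∉ S → ∀ n : ℕ, 1 ≤ n → ∃ w ∈ W,
      (nm α ω p ^ 2) ^ n + ((nm α ω p ^ 2) ^ n)⁻¹ = ((w - 2 : ℝ) : ℂ))
    (h0W : e₁ % 2 ≠ e₂ % 2 → (0 : ℝ) ∈ W) :
    (∀ p : ℕ, p.Prime → p ∉ S → ∃ n : ℕ, 0 < n ∧ n < 2 * W.card ∧ α p ^ n = β p ^ n) ∧
    ∀ (k q : ℕ) [NeZero q] (χ : DirichletCharacter ℂ q), ∃ N D N' D' : ℂ → ℂ,
      TwL S α β 0 e₁ e₂ k χ N D N' D' := by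
  classical
  have hu : ∀ p : ℕ, p.Prime → p ∉ S → nm α ω p ^ 2 ≠ 0 := fun p hp hpS =>
    pow_ne_zero _ (h.nm_ne hp hpS)
  obtain ⟨hord, P, hPm, hPd, hP1, hP2, hP3⟩ := int_closed hu W hcl
  have hn : ∀ p : ℕ, p.Prime → p ∉ S → ‖nm α ω p‖ = 1 := by
    intro p hp hpS
    have h1 : (nm α ω p) ^ (2 * orderOf (nm α ω p ^ 2)) = 1 := by
      rw [pow_mul, pow_orderOf_eq_one]
    exact norm_eq_one_of_pow_eq_one h1 (by have := (hord p hp hpS).1; omega)
  refine ⟨fun p hp hpS => ?_, fun k q _ χ => ?_⟩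
  · obtain ⟨h1, h2⟩ := hord p hp hpS
    refine ⟨orderOf (nm α ω p ^ 2), h1, h2, ?_⟩
    set n := orderOf (nm α ω p ^ 2) with hnn
    have h3 : (nm α ω p ^ 2) ^ n = 1 := pow_orderOf_eq_one _
    have h4 := h.nm_inv hp hpS
    have h5 := h.nm_ne hp hpS
    have h6 := h.sq_ne hp hpS
    have h7 : nm α ω p ^ n = ((nm α ω p)⁻¹) ^ n := by
      rw [inv_pow]
      have h8 : nm α ω p ^ n ≠ 0 := pow_ne_zero _ h5
      field_simp
      rw [← h3]
      ring
    rw [h4] at h7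
    unfold nm at h7
    rw [div_pow, div_pow] at h7
    exact (div_left_inj' (pow_ne_zero _ h6)).1 h7
  · obtain ⟨k', ε, hε, rfl⟩ : ∃ k' ε : ℕ, ε ≤ 1 ∧ k = 2 * k' + ε :=
      ⟨k / 2, k % 2, by omega, by omega⟩
    obtain ⟨c, hc⟩ := char_relT hPm hε k'
    set d := P.natDegree with hd
    have : NeZero (M * q) := ⟨mul_ne_zero (NeZero.ne M) (NeZero.ne q)⟩
    have : NeZero (M * (M * q)) := ⟨mul_ne_zero (NeZero.ne M) (NeZero.ne _)⟩
    set ψ : DirichletCharacter ℂ (M * q) :=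
      (DirichletCharacter.changeLevel (Nat.dvd_mul_right M q) ω) ^ k' *
        DirichletCharacter.changeLevel (Nat.dvd_mul_left q M) χ with hψ
    have hψp : ∀ p : ℕ, p.Prime → p ∉ S → ψ p = ω p ^ k' * χ p := by
      intro p hp hpS
      have hM : ¬ p ∣ M := fun h1 => hpS (h.ram p hp h1)
      by_cases hq : p ∣ q
      · have h2 : ¬ IsUnit ((p : ℕ) : ZMod q) := by
          rw [ZMod.isUnit_iff_coprime, hp.coprime_iff_not_dvd, not_not]
          exact hq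
        have h3 : ¬ IsUnit ((p : ℕ) : ZMod (M * q)) := by
          rw [ZMod.isUnit_iff_coprime, hp.coprime_iff_not_dvd, not_not]
          exact Dvd.dvd.mul_left hq M
        rw [MulChar.map_nonunit χ h2, MulChar.map_nonunit ψ h3, mul_zero]
      · have hp2 : p ∉ (M * q).primeFactors := by
          intro h1
          rcases (hp.dvd_mul).1 (Nat.dvd_of_mem_primeFactors h1) with h2 | h2
          · exact hM h2
          · exact hq h2
        have hu : IsUnit ((p : ℕ) : ZMod (M * q)) := by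
          rw [ZMod.isUnit_iff_coprime, hp.coprime_iff_not_dvd, hp.dvd_mul]
          tauto
        rw [hψ, MulChar.mul_apply, chLevel _ χ hp hp2]
        congr 1
        rcases Nat.eq_zero_or_pos k' with h0 | h0
        · rw [h0, pow_zero, pow_zero]
          exact MulChar.one_apply hu
        · rw [MulChar.pow_apply' _ h0.ne', chLevel _ ω hp hp2]
    have hψ1 : ψ (-1) = ω (-1) ^ k' * χ (-1) := by
      have hu : IsUnit (-1 : ZMod (M * q)) := isUnit_one.neg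
      rw [hψ, MulChar.mul_apply, changeLevel_neg_one]
      congr 1
      rcases Nat.eq_zero_or_pos k' with h0 | h0
      · rw [h0, pow_zero, pow_zero]
        exact MulChar.one_apply hu
      · rw [MulChar.pow_apply' _ h0.ne', changeLevel_neg_one]
    have hθ : ∀ (j p : ℕ), p.Prime → p ∉ S → Xc ω ψ j p * sq ω p ^ (2 * j + ε) =
        χ p * sq ω p ^ (2 * k' + ε) := by
      intro j p hp hpS
      have h1 := h.om_ne hp hpS
      have h2 : ∀ i : ℕ, sq ω p ^ (2 * i + ε) = ω p ^ i * sq ω p ^ ε := by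
        intro i
        rw [pow_add, pow_mul, sq_sq]
      rw [h.Xc_apply ψ j hp hpS, hψp p hp hpS, h2, h2, inv_pow]
      field_simp
    have hL : ∀ j : ℕ, ∃ N D N' D' : ℂ → ℂ, j ∈ Finset.range d →
        Nc S (S ∪ q.primeFactors) (Ep α β (2 * j + ε) (Xc ω ψ j)) (Ed α β (2 * j + ε) (Xc ω ψ j))
          (gx e₁ e₂ (2 * j + ε) (pc (Xc ω ψ j))) N D N' D' := by
      intro j
      by_cases hj : j ∈ Finset.range d
      · rw [Finset.mem_range] at hj
        obtain ⟨N, D, N', D', h1⟩ := hyp (2 * j + ε) (by omega) _ (Xc ω ψ j)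
        refine ⟨N, D, N', D', fun _ => h1.toNc h hn ?_⟩
        intro p hp
        rw [Finset.mem_union] at hp ⊢
        rcases hp with hp | hp
        · exact Or.inl hp
        · have hpp := Nat.prime_of_mem_primeFactors hp
          have hdv := Nat.dvd_of_mem_primeFactors hp
          rw [hpp.dvd_mul, hpp.dvd_mul] at hdv
          rcases hdv with h2 | h2 | h2
          · exact Or.inl (h.ram p hpp h2)
          · exact Or.inl (h.ram p hpp h2)
          · exact Or.inr (Nat.mem_primeFactors.2 ⟨hpp, h2, NeZero.ne q⟩)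
      · exact ⟨0, 0, 0, 0, fun h => absurd h hj⟩
    choose N D N' D' hL using hL
    obtain ⟨A, B, A', B', hS⟩ := Nc.sum (Finset.range d) hL c
    have hch : ∀ p : ℕ, p.Prime → p ∉ S → ∀ n : ℕ, 1 ≤ n →
        ch (2 * k' + ε) (nm α ω p ^ n) =
          ∑ j ∈ Finset.range d, (c j : ℂ) * ch (2 * j + ε) (nm α ω p ^ n) := by
      intro p hp hpS n hn1
      obtain ⟨x, hx, -⟩ := h.real hp hpS
      obtain ⟨y, hy⟩ := tr_real (h.nm_ne hp hpS) hx n
      have h1 : nm α ω p ^ n ≠ 0 := pow_ne_zero _ (h.nm_ne hp hpS)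
      have h2 : (nm α ω p ^ 2) ^ n + ((nm α ω p ^ 2) ^ n)⁻¹ = ((y ^ 2 - 2 : ℝ) : ℂ) := by
        have h3 : (nm α ω p ^ 2) ^ n = (nm α ω p ^ n) ^ 2 := by ring
        rw [h3]
        push_cast
        rw [← hy]
        field_simp
        ring
      have h3 := hc y (hP1 p hp hpS n hn1 _ h2)
      have h4 : ∀ j, ch j (nm α ω p ^ n) = (xr j y : ℂ) := fun j => ch_eq h1 hy j
      simp only [h4]
      exact_mod_cast h3
    have hchi : ∀ p : ℕ, p.Prime → p ∉ S → ∀ n : ℕ, 1 ≤ n →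
        ch (2 * k' + ε) ((nm α ω p)⁻¹ ^ n) =
          ∑ j ∈ Finset.range d, (c j : ℂ) * ch (2 * j + ε) ((nm α ω p)⁻¹ ^ n) := by
      intro p hp hpS n hn1
      simp only [inv_pow, ch_inv]
      exact hch p hp hpS n hn1
    have hg : ∑ j ∈ Finset.range d, c j • gx e₁ e₂ (2 * j + ε) (pc (Xc ω ψ j)) =
        gx e₁ e₂ (2 * k' + ε) (pc χ) := by
      have hsum : ((2 * k' + ε : ℕ) : ℤ) + 1 =
          ∑ j ∈ Finset.range d, c j * (((2 * j + ε : ℕ) : ℤ) + 1) := by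
        have h3 := hc 2 (by norm_num; exact hP2)
        simp only [xr_two] at h3
        exact_mod_cast h3
      have hpc : ∀ j, ((-1 : ℤ)) ^ pc (Xc ω ψ j) =
          ((-1) ^ (e₁ + e₂)) ^ (j + k') * (-1) ^ pc χ := by
        intro j
        have h1 := pc_spec (Xc ω ψ j)
        rw [Xc_neg_one, hψ1, hpar, ← pc_spec χ] at h1
        have h2 := h1.trans (show ((-1 : ℂ) ^ (e₁ + e₂)) ^ j *
          (((-1 : ℂ) ^ (e₁ + e₂)) ^ k' * (-1) ^ pc χ) =
          ((-1) ^ (e₁ + e₂)) ^ (j + k') * (-1) ^ pc χ by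
            rw [pow_add ((-1 : ℂ) ^ (e₁ + e₂))]
            ring)
        exact_mod_cast h2
      refine gx_sum (Finset.range d) hsum ?_
      by_cases he : e₁ % 2 = e₂ % 2
      · have hone : ((-1 : ℤ)) ^ (e₁ + e₂) = 1 := by
          have : Even (e₁ + e₂) := Nat.even_iff.2 (by omega)
          exact this.neg_one_pow
        have h1 : ∀ j f, sg e₁ e₂ (2 * j + ε) f = (-1) ^ (ε * e₁) * (-1) ^ f *
            (((2 * j + ε : ℕ) : ℤ) + 1) := by
          intro j f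
          rw [sg_same he]
          have : (-1 : ℤ) ^ ((2 * j + ε) * e₁ + f) = (-1) ^ (ε * e₁) * (-1) ^ f := by
            rw [← pow_add, neg_one_pow_eq_pow_mod_two, neg_one_pow_eq_pow_mod_two (n := ε * e₁ + f)]
            congr 1
            have : (2 * j + ε) * e₁ + f = 2 * (j * e₁) + (ε * e₁ + f) := by ring
            omega
          rw [this]
        rw [h1, hsum, Finset.mul_sum]
        refine Finset.sum_congr rfl fun j _ => ?_
        rw [h1, hpc, hone, one_pow, one_mul]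
        ring
      · have hone : ((-1 : ℤ)) ^ (e₁ + e₂) = -1 := by
          have : Odd (e₁ + e₂) := Nat.odd_iff.2 (by omega)
          exact this.neg_one_pow
        simp only [sg_diff he, hpc, hone]
        rcases (by omega : ε = 0 ∨ ε = 1) with h1 | h1
        · subst h1
          have h3 := hc 0 (by norm_num; exact hP3 (h0W he))
          have h4 : ∀ i : ℕ, xr (2 * i) 0 = (-1) ^ i := by
            intro i
            induction i with
            | zero => simp [xr]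
            | succ i ih =>
              rw [show 2 * (i + 1) = 2 * i + 2 by ring, xr, ih]
              ring
          simp only [add_zero, h4] at h3
          have h5 : ((-1 : ℤ)) ^ k' = ∑ j ∈ Finset.range d, c j * (-1) ^ j := by exact_mod_cast h3
          have h6 : ∀ i : ℕ, (2 * i + 0) % 2 = 0 := fun i => by omega
          simp only [h6, if_true, mul_one]
          have h7 : ((-1 : ℤ)) ^ k' * (-1) ^ k' = 1 := by
            rw [← pow_add, ← two_mul, pow_mul]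
            norm_num
          calc ((-1 : ℤ)) ^ pc χ = (-1) ^ pc χ * ((-1) ^ k' * (-1) ^ k') := by rw [h7, mul_one]
            _ = (-1) ^ pc χ * ((-1) ^ k' * ∑ j ∈ Finset.range d, c j * (-1) ^ j) := by rw [← h5]
            _ = _ := by
              rw [Finset.mul_sum, Finset.mul_sum]
              refine Finset.sum_congr rfl fun j _ => ?_
              rw [pow_add]
              ring
        · subst h1
          have h6 : ∀ i : ℕ, (2 * i + 1) % 2 = 1 := fun i => by omega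
          simp [h6]
    rw [hg] at hS
    refine ⟨A, B, A', B', (hS.congr (F := Ep α β (2 * k' + ε) χ) (F' := Ed α β (2 * k' + ε) χ)
      (fun p hp hpS s hs => ?_) (fun p hp hpS s hs => ?_)).toTwL h hn⟩
    · rw [Ep_eq h χ hp hpS, Lgf_rel (Finset.range d) (th_le h χ hp hpS _) (hn p hp hpS)
        (hch p hp hpS) (z_lt hp hs)]
      refine Finset.sum_congr rfl fun j _ => ?_
      rw [Ep_eq h _ hp hpS, hθ j p hp hpS]
    · rw [Ed_eq h χ hp hpS, Lgf_rel (Finset.range d) (th_inv_le h χ hp hpS _)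
        (by rw [norm_inv, hn p hp hpS, inv_one]) (hchi p hp hpS) (z_lt hp hs)]
      refine Finset.sum_congr rfl fun j _ => ?_
      rw [Ed_eq h _ hp hpS, hθ j p hp hpS]

end

end Pool.Agent.V8H27.NP
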