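import Pool.Agent.V8H27.NP.Rig

/-!
# Closure under powers and the archimedean place
-/

set_option autoImplicit false

namespace Pool.Agent.V8H27.NP

open Filter Topology Complex Set Pool.Agent.N210.FV Pool.Agent.N210.FW Pool.Agent.N845.SP

/-- all twists of the first `K` symmetric powers -/
def AllTw (S : Finset ℕ) (α β : ℕ → ℂ) (r : ℂ) (e₁ e₂ K : ℕ) : Prop :=
  ∀ k ≤ K, ∀ (q : ℕ) [NeZero q] (χ : DirichletCharacter ℂ q),
    ∃ N D N' D' : ℂ → ℂ, TwL S α β r e₁ e₂ k χ N D N' D'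

section

variable {S : Finset ℕ} {α β : ℕ → ℂ} {M : ℕ} [NeZero M] {ω : DirichletCharacter ℂ M}

theorem AllTw.ch {r : ℂ} {e₁ e₂ K : ℕ} (hyp : AllTw S α β r e₁ e₂ K) {Q : ℕ} [NeZero Q]
    (X : ℕ → DirichletCharacter ℂ Q) :
    ∃ N D N' D' : ℕ → ℂ → ℂ, ∀ k ≤ K, TwL S α β r e₁ e₂ k (X k) (N k) (D k) (N' k) (D' k) := by
  have h : ∀ k : ℕ, ∃ N D N' D' : ℂ → ℂ, k ≤ K → TwL S α β r e₁ e₂ k (X k) N D N' D' := by
    intro k
    by_cases hk : k ≤ K
    · obtain ⟨N, D, N', D', h⟩ := hyp k hk Q (X k)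
      exact ⟨N, D, N', D', fun _ => h⟩
    · exact ⟨0, 0, 0, 0, fun h => absurd h hk⟩
  choose N D N' D' h using h
  exact ⟨N, D, N', D', h⟩

theorem Dat.half (h : Dat S α β ω) {q : ℕ} [NeZero q] (ψ : DirichletCharacter ℂ q) (k : ℕ)
    {p : ℕ} (hp : p.Prime) (hpS : p ∉ S) :
    Xc ω ψ (k / 2) p * sq ω p ^ k = ψ p * sq ω p ^ (k % 2) := by
  have h1 := h.om_ne hp hpS
  have h2 : sq ω p ^ k = ω p ^ (k / 2) * sq ω p ^ (k % 2) := by
    conv_lhs => rw [← Nat.div_add_mod k 2]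
    rw [pow_add, pow_mul, sq_sq]
  rw [h.Xc_apply ψ _ hp hpS, h2, inv_pow]
  field_simp

theorem exists_notMem (W : Finset ℝ) : ∃ x : ℝ, x ^ 2 ∉ W := by
  by_contra hcon
  push Not at hcon
  have h : Set.Infinite (Set.range fun n : ℕ => ((n : ℝ)) ^ 2) := by
    apply Set.infinite_range_of_injective
    intro m n hmn
    simp only at hmn
    have : m ^ 2 = n ^ 2 := by exact_mod_cast hmn
    exact (Nat.pow_left_injective (by norm_num)) this
  apply h
  refine (Finset.finite_toSet W).subset ?_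
  rintro _ ⟨n, rfl⟩
  exact hcon n

theorem one_char (p : ℕ) : (1 : DirichletCharacter ℂ 1) (p : ZMod 1) = 1 :=
  MulChar.one_apply (isUnit_of_subsingleton _)

theorem sum_inv_ne {z : ℂ} (hz : z ≠ 0) (h : z ^ 2 ≠ -1) : z + z⁻¹ ≠ 0 := by
  intro h1
  apply h
  have h2 : z * (z + z⁻¹) = 0 := by rw [h1, mul_zero]
  rw [mul_add, mul_inv_cancel₀ hz] at h2
  linear_combination h2

/-- **rigidity** -/
theorem Dat.rigid (h : Dat S α β ω) {r : ℂ} {e₁ e₂ K : ℕ} (hpar : ω (-1) = (-1) ^ (e₁ + e₂))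
    (hyp : AllTw S α β r e₁ e₂ K) (T : Finset ℕ) (W : Finset ℝ)
    (hT : ∀ p : ℕ, p.Prime → p ∉ T → ‖α p + β p‖ ^ 2 ∈ W)
    (hW : 2 * W.card ≤ K ∨ ((0 : ℝ) ∈ W ∧ 2 * W.card ≤ K + 1)) :
    r = 0 ∧ (∀ p : ℕ, p.Prime → p ∉ S → ∀ n : ℕ, 1 ≤ n → ∃ w ∈ W,
      (nm α ω p ^ 2) ^ n + ((nm α ω p ^ 2) ^ n)⁻¹ = ((w - 2 : ℝ) : ℂ)) ∧
      (e₁ % 2 ≠ e₂ % 2 → (0 : ℝ) ∈ W) := by
  classical
  obtain ⟨ε, c, hε, hε0, hc, hcW⟩ := exists_Q W hW
  set V : Finset ℝ := ((W.filter fun w => 0 ≤ w).image Real.sqrt) ∪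
    ((W.filter fun w => 0 ≤ w).image fun w => -Real.sqrt w) with hV
  have hVsq : ∀ v ∈ V, v ^ 2 ∈ W := by
    intro v hv
    rw [hV, Finset.mem_union, Finset.mem_image, Finset.mem_image] at hv
    rcases hv with ⟨w, hw, rfl⟩ | ⟨w, hw, rfl⟩
    · rw [Finset.mem_filter] at hw
      rw [Real.sq_sqrt hw.2]
      exact hw.1
    · rw [Finset.mem_filter] at hw
      rw [neg_sq, Real.sq_sqrt hw.2]
      exact hw.1
  have hTV : ∀ p : ℕ, p.Prime → p ∉ S → p ∉ T →
      ∃ v ∈ V, nm α ω p + (nm α ω p)⁻¹ = (v : ℂ) := by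
    intro p hp hpS hpT
    obtain ⟨x, hx, hx2⟩ := h.real hp hpS
    refine ⟨x, ?_, hx⟩
    have h1 := hT p hp hpT
    rw [← hx2] at h1
    rw [hV, Finset.mem_union, Finset.mem_image, Finset.mem_image]
    rcases le_total 0 x with h0 | h0
    · exact Or.inl ⟨x ^ 2, Finset.mem_filter.2 ⟨h1, sq_nonneg x⟩, Real.sqrt_sq h0⟩
    · refine Or.inr ⟨x ^ 2, Finset.mem_filter.2 ⟨h1, sq_nonneg x⟩, ?_⟩
      rw [← neg_sq, Real.sqrt_sq (by linarith), neg_neg]
  have hc0 : ∀ v ∈ V, ∑ j ∈ Finset.range (K + 1), c j * xr j v = 0 := fun v hv =>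
    (hcW v).2 (hVsq v hv)
  have main : ∀ (q : ℕ) [NeZero q] (ψ : DirichletCharacter ℂ q),
      (∀ p : ℕ, p.Prime → p ∉ S → ¬ p ∣ q → ∀ n : ℕ, 1 ≤ n → ∀ y : ℝ,
        nm α ω p ^ n + (nm α ω p ^ n)⁻¹ = (y : ℂ) →
        (ψ p * sq ω p ^ ε) ^ n + ((ψ p * sq ω p ^ ε) ^ n)⁻¹ ≠ 0 → y ^ 2 ∈ W) ∧
      ∀ z : ℂ, ∑ j ∈ Finset.range (K + 1), c j *
        ((mo (gi (gam r e₁ e₂ j (pc (Xc ω ψ (j / 2))) ++
          gam (-r) e₁ e₂ j (pc (Xc ω ψ (j / 2))))) (1 - z) : ℝ) -
        mo (gi (gam r e₁ e₂ j (pc (Xc ω ψ (j / 2))) ++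
          gam (-r) e₁ e₂ j (pc (Xc ω ψ (j / 2))))) z) = 0 := by
    intro q _ ψ
    have : NeZero (M * q) := ⟨mul_ne_zero (NeZero.ne M) (NeZero.ne q)⟩
    obtain ⟨N, D, N', D', hL⟩ := hyp.ch fun k => Xc ω ψ (k / 2)
    obtain ⟨h1, h2⟩ := h.rel hL T V hTV c (fun p => ψ p * sq ω p ^ ε) (by
      intro k _ hck p hp hpS
      have h3 : k % 2 = ε := by
        by_contra h4
        exact hck (hc k h4)
      rw [← h3]
      exact h.half ψ k hp hpS) hc0
    refine ⟨fun p hp hpS hpq n hn y hy hne => ?_, h2⟩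
    rw [← hcW]
    refine h1 p hp ?_ n hn y hy hne
    rw [Finset.mem_union, not_or]
    refine ⟨hpS, fun h3 => ?_⟩
    rcases (hp.dvd_mul).1 (Nat.dvd_of_mem_primeFactors h3) with h4 | h4
    · exact hpS (h.ram p hp h4)
    · exact hpq h4
  have hr : r = 0 := by
    refine r_zero (main 1 1).2 ?_
    obtain ⟨x, hx⟩ := exists_notMem W
    exact ⟨x, fun h1 => hx ((hcW x).1 h1)⟩
  refine ⟨hr, fun p hp hpS n hn => ?_, fun he => ?_⟩
  · obtain ⟨x, hx, -⟩ := h.real hp hpS
    obtain ⟨y, hy⟩ := tr_real (h.nm_ne hp hpS) hx n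
    have hy2 : y ^ 2 ∈ W := by
      rcases (by omega : ε = 0 ∨ ε = 1) with h0 | h0
      · refine (main 1 1).1 p hp hpS hp.not_dvd_one n hn y hy ?_
        rw [h0, one_char, pow_zero, one_mul, one_pow]
        norm_num
      · by_cases hω : ω p ^ n = -1
        · set q : ℕ := p ^ (2 * n) + 1 with hq
          have hq3 : 2 < q := by
            have h1 : 2 ^ (2 * n) ≤ p ^ (2 * n) := Nat.pow_le_pow_left hp.two_le _
            have h2 : 2 ^ 2 ≤ 2 ^ (2 * n) := Nat.pow_le_pow_right (by norm_num) (by omega)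
            omega
          have : NeZero q := ⟨by omega⟩
          have hpq : ¬ p ∣ q := by
            intro h1
            have h2 : p ∣ p ^ (2 * n) := dvd_pow_self p (by omega)
            exact hp.not_dvd_one ((Nat.dvd_add_right h2).1 h1)
          have ha : ((p : ℕ) : ZMod q) ^ (2 * n) ≠ 1 := by
            intro h1
            have h2 : (((p ^ (2 * n) + 1 : ℕ)) : ZMod q) = 0 := by
              rw [← hq]
              exact ZMod.natCast_self q
            push_cast at h2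
            rw [h1] at h2
            have h3 : ((2 : ℕ) : ZMod q) = 0 := by
              push_cast
              rw [← h2]
              norm_num
            rw [ZMod.natCast_eq_zero_iff] at h3
            have := Nat.le_of_dvd (by norm_num) h3
            omega
          obtain ⟨ψ, hψ⟩ := DirichletCharacter.exists_apply_ne_one_of_hasEnoughRootsOfUnity
            (R := ℂ) ha
          refine (main q ψ).1 p hp hpS hpq n hn y hy ?_
          have hn1 := chi_norm ψ hp (fun h1 => hpq (Nat.dvd_of_mem_primeFactors h1))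
          have hψ0 : ψ p ≠ 0 := by
            intro h1
            rw [h1, norm_zero] at hn1
            exact zero_ne_one hn1
          refine sum_inv_ne (pow_ne_zero _ (mul_ne_zero hψ0 (pow_ne_zero _ (h.sq_ne hp hpS)))) ?_
          intro h1
          apply hψ
          rw [map_pow]
          rw [h0, pow_one] at h1
          have h2 : (ψ p * sq ω p) ^ n ^ 1 = (ψ p * sq ω p) ^ n := by rw [pow_one]
          have h3 : ((ψ p * sq ω p) ^ n) ^ 2 = ψ p ^ (2 * n) * ω p ^ n := by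
            rw [← sq_sq (ω := ω) p]
            ring
          rw [h3, hω] at h1
          linear_combination -h1
        · refine (main 1 1).1 p hp hpS hp.not_dvd_one n hn y hy ?_
          rw [h0, one_char, one_mul, pow_one]
          refine sum_inv_ne (pow_ne_zero _ (h.sq_ne hp hpS)) ?_
          intro h1
          apply hω
          rw [← sq_sq (ω := ω) p, ← h1]
          ring
    refine ⟨y ^ 2, hy2, ?_⟩
    have h1 : nm α ω p ^ n ≠ 0 := pow_ne_zero _ (h.nm_ne hp hpS)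
    have h2 : (nm α ω p ^ 2) ^ n = (nm α ω p ^ n) ^ 2 := by ring
    rw [h2]
    push_cast
    rw [← hy]
    field_simp
    ring
  · by_cases h0 : ε = 1
    · exact hε0 h0
    · have h1 : ε = 0 := by omega
      subst hr
      have h2 := sg_rel (main 1 1).2
      have h3 : ∑ j ∈ Finset.range (K + 1), c j * xr j 0 = 0 := by
        refine Eq.trans ?_ h2
        refine Finset.sum_congr rfl fun j _ => ?_
        by_cases hj : j % 2 = ε
        · congr 1
          rw [h1] at hj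
          rw [sg_diff he, if_pos hj, mul_one]
          have h4 := pc_spec (Xc ω (1 : DirichletCharacter ℂ 1) (j / 2))
          rw [Xc_neg_one, hpar] at h4
          have h5 : (1 : DirichletCharacter ℂ 1) (-1) = 1 := by
            rw [MulChar.one_apply isUnit_one.neg]
          rw [h5] at h4
          have h4' := h4.trans (show ((-1 : ℂ) ^ (e₁ + e₂)) ^ (j / 2) * 1 =
            (-1) ^ ((e₁ + e₂) * (j / 2)) by rw [mul_one, ← pow_mul])
          have h6 : ((-1 : ℝ)) ^ pc (Xc ω (1 : DirichletCharacter ℂ 1) (j / 2)) =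
              (-1) ^ ((e₁ + e₂) * (j / 2)) := by exact_mod_cast h4'
          push_cast
          rw [h6]
          have h7 : ((-1 : ℝ)) ^ ((e₁ + e₂) * (j / 2)) = (-1) ^ (j / 2) := by
            rw [pow_mul]
            congr 1
            have : Odd (e₁ + e₂) := Nat.odd_iff.2 (by omega)
            exact this.neg_one_pow
          rw [h7]
          obtain ⟨i, rfl⟩ : ∃ i, j = 2 * i := ⟨j / 2, by omega⟩
          rw [Nat.mul_div_cancel_left i (by norm_num)]
          have : ∀ i : ℕ, xr (2 * i) 0 = (-1) ^ i := by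
            intro i
            induction i with
            | zero => simp [xr]
            | succ i ih =>
              rw [show 2 * (i + 1) = 2 * i + 2 by ring, xr, ih]
              ring
          exact this i
        · rw [hc j hj, zero_mul, zero_mul]
      have h4 := (hcW 0).1 h3
      simpa using h4

end

end Pool.Agent.V8H27.NP
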