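import Pool.Agent.N845.SP.Few

/-!
# Twisted symmetric power L-functions of a representation of `GL_2` and the doubled L-functions
-/

set_option autoImplicit false

namespace Pool.Agent.V8H27.NP

open Filter Topology Complex Set Pool.Agent.N210.FV Pool.Agent.N210.FW Pool.Agent.N845.SP

/-- parity of a Dirichlet character -/
noncomputable def pc {q : ℕ} (χ : DirichletCharacter ℂ q) : ℕ :=
  open Classical in if χ (-1) = 1 then 0 else 1

/-- parameters of the gamma factor of `Sym^k π ⊗ χ`, `f` the parity of `χ` -/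
noncomputable def gam (r : ℂ) (e₁ e₂ k f : ℕ) : List ℂ :=
  (List.range (k + 1)).map fun i : ℕ =>
    r * ((k : ℂ) - 2 * i) + ((((k - i) * e₁ + i * e₂ + f) % 2 : ℕ) : ℂ)

/-- the Satake parameters of `Sym^k π ⊗ χ` -/
noncomputable def par (α β : ℕ → ℂ) (k : ℕ) {q : ℕ} (χ : DirichletCharacter ℂ q) (p i : ℕ) : ℂ :=
  χ p * α p ^ (k - i) * β p ^ i

/-- the analytic properties of `L_S(s, Sym^k π ⊗ χ) = N / D` and of the contragredient `N' / D'` -/
structure TwL (S : Finset ℕ) (α β : ℕ → ℂ) (r : ℂ) (e₁ e₂ k : ℕ) {q : ℕ}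
    (χ : DirichletCharacter ℂ q) (N D N' D' : ℂ → ℂ) : Prop where
  diffN : Differentiable ℂ N
  diffD : Differentiable ℂ D
  diffN' : Differentiable ℂ N'
  diffD' : Differentiable ℂ D'
  order : ∃ C : ℝ, ∀ s, ‖N s‖ ≤ Real.exp (C * (1 + ‖s‖) ^ (3 / 2 : ℝ)) ∧
    ‖D s‖ ≤ Real.exp (C * (1 + ‖s‖) ^ (3 / 2 : ℝ)) ∧
    ‖N' s‖ ≤ Real.exp (C * (1 + ‖s‖) ^ (3 / 2 : ℝ)) ∧
    ‖D' s‖ ≤ Real.exp (C * (1 + ‖s‖) ^ (3 / 2 : ℝ))
  ne : ∀ s : ℂ, 1 < s.re → D s ≠ 0
  ne' : ∀ s : ℂ, 1 < s.re → D' s ≠ 0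
  euler : ∀ s : ℂ, 1 < s.re → Tendsto (fun X : ℕ =>
    ∏ p ∈ (Finset.range X).filter (fun p => p.Prime ∧ p ∉ S),
      ∏ i ∈ Finset.range (k + 1), (1 - par α β k χ p i * (p : ℂ) ^ (-s))⁻¹) atTop (𝓝 (N s / D s))
  euler' : ∀ s : ℂ, 1 < s.re → Tendsto (fun X : ℕ =>
    ∏ p ∈ (Finset.range X).filter (fun p => p.Prime ∧ p ∉ S),
      ∏ i ∈ Finset.range (k + 1), (1 - (par α β k χ p i)⁻¹ * (p : ℂ) ^ (-s))⁻¹) atTop
      (𝓝 (N' s / D' s))
  fe : ∃ (l l' m m' : List (ℕ × ℂ)) (A : ℝ) (ε : ℂ), 0 < A ∧ ε ≠ 0 ∧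
    (∀ x ∈ l ++ l' ++ m ++ m', x.1.Prime ∧ x.1 ∈ S ∪ q.primeFactors) ∧
    ∀ s, (A : ℂ) ^ s * gi (gam (-r) e₁ e₂ k (pc χ)) (1 - s) * ef l' (1 - s) * ef m s *
        (N s * D' (1 - s)) =
      ε * (A : ℂ) ^ (1 - s) * gi (gam r e₁ e₂ k (pc χ)) s * ef l s * ef m' (1 - s) *
        (N' (1 - s) * D s)

/-! ### doubling -/

/-- the parameters and their inverses -/
noncomputable def dbl (n : ℕ) (P : ℕ → ℕ → ℂ) (p i : ℕ) : ℂ :=
  if i < n then P p i else (P p (i - n))⁻¹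

theorem prod_dbl {M : Type*} [CommMonoid M] (n : ℕ) (P : ℕ → ℕ → ℂ) (p : ℕ) (f : ℂ → M) :
    ∏ i ∈ Finset.range (n + n), f (dbl n P p i) =
      (∏ i ∈ Finset.range n, f (P p i)) * ∏ i ∈ Finset.range n, f ((P p i)⁻¹) := by
  rw [Finset.prod_range_add]
  congr 1
  · refine Finset.prod_congr rfl fun i hi => ?_
    rw [Finset.mem_range] at hi
    unfold dbl
    rw [if_pos hi]
  · refine Finset.prod_congr rfl fun i _ => ?_
    unfold dbl
    rw [if_neg (by omega), Nat.add_sub_cancel_left]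

theorem sum_dbl {M : Type*} [AddCommMonoid M] (n : ℕ) (P : ℕ → ℕ → ℂ) (p : ℕ) (f : ℂ → M) :
    ∑ i ∈ Finset.range (n + n), f (dbl n P p i) =
      (∑ i ∈ Finset.range n, f (P p i)) + ∑ i ∈ Finset.range n, f ((P p i)⁻¹) := by
  rw [Finset.sum_range_add]
  congr 1
  · refine Finset.sum_congr rfl fun i hi => ?_
    rw [Finset.mem_range] at hi
    unfold dbl
    rw [if_pos hi]
  · refine Finset.sum_congr rfl fun i _ => ?_
    unfold dbl
    rw [if_neg (by omega), Nat.add_sub_cancel_left]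

theorem dbl_sym (n : ℕ) (P : ℕ → ℕ → ℂ) (p : ℕ) {x : ℂ} :
    (open Classical in ∑ i ∈ Finset.range (n + n), if dbl n P p i = x then (1 : ℝ) else 0) =
      (open Classical in ∑ i ∈ Finset.range (n + n), if dbl n P p i = x⁻¹ then (1 : ℝ) else 0) := by
  classical
  rw [sum_dbl n P p (fun y => if y = x then (1 : ℝ) else 0),
    sum_dbl n P p (fun y => if y = x⁻¹ then (1 : ℝ) else 0), add_comm]
  congr 1
  · refine Finset.sum_congr rfl fun i _ => ?_
    have : ((P p i)⁻¹ = x) = (P p i = x⁻¹) := by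
      rw [eq_iff_iff, inv_eq_iff_eq_inv]
    simp only [this]
  · refine Finset.sum_congr rfl fun i _ => ?_
    have : (P p i = x) = ((P p i)⁻¹ = x⁻¹) := by
      rw [eq_iff_iff, inv_inj]
    simp only [this]

theorem gi_append (μ ν : List ℂ) (s : ℂ) : gi (μ ++ ν) s = gi μ s * gi ν s := by
  unfold gi
  rw [List.map_append, List.prod_append]

theorem par_zero {α β : ℕ → ℂ} {k q : ℕ} [NeZero q] {χ : DirichletCharacter ℂ q} {p : ℕ}
    (hp : p.Prime) (hq : p ∈ q.primeFactors) (i : ℕ) : par α β k χ p i = 0 := by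
  unfold par
  have h : ¬ IsUnit ((p : ℕ) : ZMod q) := by
    rw [ZMod.isUnit_iff_coprime, hp.coprime_iff_not_dvd, not_not]
    exact Nat.dvd_of_mem_primeFactors hq
  rw [MulChar.map_nonunit χ h]
  ring

theorem filter_eq {α β : ℕ → ℂ} {k q : ℕ} [NeZero q] {χ : DirichletCharacter ℂ q}
    (S : Finset ℕ) (g : ℕ → ℂ → ℂ) (hg : ∀ p, g p 0 = 1) (X : ℕ) :
    ∏ p ∈ (Finset.range X).filter (fun p => p.Prime ∧ p ∉ S ∪ q.primeFactors),
      ∏ i ∈ Finset.range (k + 1), g p (par α β k χ p i) =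
    ∏ p ∈ (Finset.range X).filter (fun p => p.Prime ∧ p ∉ S),
      ∏ i ∈ Finset.range (k + 1), g p (par α β k χ p i) := by
  classical
  refine Finset.prod_subset ?_ ?_
  · intro p hp
    rw [Finset.mem_filter, Finset.mem_union, not_or] at hp
    rw [Finset.mem_filter]
    exact ⟨hp.1, hp.2.1, hp.2.2.1⟩
  · intro p hp hp2
    rw [Finset.mem_filter] at hp
    rw [Finset.mem_filter, Finset.mem_union] at hp2
    have hq : p ∈ q.primeFactors := by
      by_contra h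
      apply hp2
      exact ⟨hp.1, hp.2.1, fun h1 => h1.elim hp.2.2 h⟩
    refine Finset.prod_eq_one fun i _ => ?_
    rw [par_zero hp.2.1 hq, hg]

/-- the doubled L-function -/
theorem TwL.toLG {S : Finset ℕ} {α β : ℕ → ℂ} {r : ℂ} {e₁ e₂ k q : ℕ} [NeZero q]
    {χ : DirichletCharacter ℂ q} {N D N' D' : ℂ → ℂ}
    (h : TwL S α β r e₁ e₂ k χ N D N' D') :
    LG (S ∪ q.primeFactors) (Finset.range ((k + 1) + (k + 1))) (dbl (k + 1) (par α β k χ))
      (gam r e₁ e₂ k (pc χ) ++ gam (-r) e₁ e₂ k (pc χ)) (fun s => N s * N' s)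
      (fun s => D s * D' s) := by
  obtain ⟨C, hC⟩ := h.order
  obtain ⟨l, l', m, m', A, ε, hA, hε, hl, hfe⟩ := h.fe
  refine ⟨h.diffN.mul h.diffN', h.diffD.mul h.diffD', ⟨C + C, fun s => ?_⟩,
    fun s hs => mul_ne_zero (h.ne s hs) (h.ne' s hs), fun s hs => ?_, ?_⟩
  · rw [add_mul, Real.exp_add, norm_mul, norm_mul]
    obtain ⟨h1, h2, h3, h4⟩ := hC s
    exact ⟨mul_le_mul h1 h3 (norm_nonneg _) (Real.exp_pos _).le,
      mul_le_mul h2 h4 (norm_nonneg _) (Real.exp_pos _).le⟩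
  · have h1 := (h.euler s hs).mul (h.euler' s hs)
    rw [div_mul_div_comm] at h1
    refine h1.congr fun X => ?_
    have e1 := filter_eq (α := α) (β := β) (k := k) (χ := χ) S
      (fun p y => (1 - y * (p : ℂ) ^ (-s))⁻¹) (fun p => by simp) X
    have e2 := filter_eq (α := α) (β := β) (k := k) (χ := χ) S
      (fun p y => (1 - y⁻¹ * (p : ℂ) ^ (-s))⁻¹) (fun p => by simp) X
    rw [← e1, ← e2, ← Finset.prod_mul_distrib]
    refine Finset.prod_congr rfl fun p _ => ?_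
    rw [prod_dbl (k + 1) (par α β k χ) p (fun y => (1 - y * (p : ℂ) ^ (-s))⁻¹)]
  · have hA0 : (A : ℂ) ≠ 0 := by exact_mod_cast hA.ne'
    refine ⟨l ++ l', m ++ m', A * A, 1, mul_pos hA hA, one_ne_zero, ?_, ?_, fun s => ?_⟩
    · intro x hx
      refine hl x ?_
      simp only [List.mem_append] at hx ⊢
      tauto
    · intro x hx
      refine hl x ?_
      simp only [List.mem_append] at hx ⊢
      tauto
    · have e1 := hfe s
      have e2 := hfe (1 - s)
      rw [sub_sub_cancel] at e2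
      rw [cpow_mul_pos hA hA, cpow_mul_pos hA hA, gi_append, gi_append, ef_append, ef_append,
        ef_append, ef_append]
      refine mul_left_cancel₀ hε ?_
      set X1 := (A : ℂ) ^ s * gi (gam (-r) e₁ e₂ k (pc χ)) (1 - s) * ef l' (1 - s) * ef m s *
        (N s * D' (1 - s)) with hX1
      set X2 := (A : ℂ) ^ (1 - s) * gi (gam (-r) e₁ e₂ k (pc χ)) s * ef l' s * ef m (1 - s) *
        (N (1 - s) * D' s) with hX2
      calc _ = X1 * (ε * (A : ℂ) ^ s * gi (gam r e₁ e₂ k (pc χ)) (1 - s) * ef l (1 - s) *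
            ef m' s * (N' s * D (1 - s))) := by
            rw [hX1]
            ring
        _ = X1 * X2 := by rw [← e2]
        _ = _ := by
            rw [e1, hX2]
            ring

end Pool.Agent.V8H27.NP
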