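import Pool.Agent.V8H27.NP.Clo

/-!
# Integral relations between the characters of one parity
-/

set_option autoImplicit false

namespace Pool.Agent.V8H27.NP

open Polynomial Pool.Agent.N210.FW Pool.Agent.N845.SP

/-- the character of `Sym^(2j+ε)`, divided by `x^ε`, as a polynomial in `x² - 2` -/
noncomputable def Tp (ε : ℕ) : ℕ → ℤ[X]
  | 0 => 1
  | 1 => X + C (1 - (ε : ℤ))
  | k + 2 => X * Tp ε (k + 1) - Tp ε k

theorem Tp_monic (ε : ℕ) : ∀ k : ℕ, (Tp ε k).Monic ∧ (Tp ε k).natDegree = k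
  | 0 => by simp [Tp]
  | 1 => by
    unfold Tp
    exact ⟨monic_X_add_C _, natDegree_X_add_C _⟩
  | k + 2 => by
    obtain ⟨h1, h2⟩ := Tp_monic ε (k + 1)
    obtain ⟨h3, h4⟩ := Tp_monic ε k
    have h5 : (X * Tp ε (k + 1)).Monic := monic_X.mul h1
    have h6 : (X * Tp ε (k + 1)).natDegree = k + 2 := by
      rw [monic_X.natDegree_mul h1, natDegree_X, h2]
      ring
    have h7 : (Tp ε k).degree < (X * Tp ε (k + 1)).degree := by
      rw [degree_eq_natDegree h3.ne_zero, degree_eq_natDegree h5.ne_zero, h6, h4]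
      exact_mod_cast (by omega : k < k + 2)
    unfold Tp
    refine ⟨h5.sub_of_left h7, ?_⟩
    rw [natDegree_sub_eq_left_of_natDegree_lt (by rw [h6, h4]; omega), h6]

theorem Tp_step (ε k : ℕ) : Tp ε (k + 2) = X * Tp ε (k + 1) - Tp ε k := rfl

theorem xr_two_step (x : ℝ) (k : ℕ) : xr (k + 4) x = (x ^ 2 - 2) * xr (k + 2) x - xr k x := by
  rw [show k + 4 = (k + 2) + 2 by ring, xr, show k + 2 + 1 = (k + 1) + 2 by ring, xr,
    show k + 1 + 1 = k + 2 by ring, xr]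
  ring

theorem xr_Tp (x : ℝ) {ε : ℕ} (hε : ε ≤ 1) : ∀ j : ℕ,
    xr (2 * j + ε) x = x ^ ε * aeval (x ^ 2 - 2) (Tp ε j)
  | 0 => by
    rcases (by omega : ε = 0 ∨ ε = 1) with h | h <;> subst h <;> simp [Tp, xr]
  | 1 => by
    rcases (by omega : ε = 0 ∨ ε = 1) with h | h
    · subst h
      simp [Tp, xr]
      ring
    · subst h
      simp [Tp, xr]
      ring
  | j + 2 => by
    have h1 := xr_Tp x hε (j + 1)
    have h2 := xr_Tp x hε j
    rw [show 2 * (j + 2) + ε = (2 * j + ε) + 4 by ring, xr_two_step,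
      show 2 * j + ε + 2 = 2 * (j + 1) + ε by ring, h1, h2]
    rw [Tp_step, map_sub, map_mul, aeval_X]
    ring

/-- polynomials of degree `< n` are combinations of the first `n` characters -/
theorem exists_coefT (ε : ℕ) : ∀ (n : ℕ) (P : ℤ[X]), (∀ m, n ≤ m → P.coeff m = 0) →
    ∃ c : ℕ → ℤ, ∀ x : ℝ, aeval x P = ∑ j ∈ Finset.range n, (c j : ℝ) * aeval x (Tp ε j)
  | 0, P, h => by
    have : P = 0 := by
      ext m
      rw [h m (Nat.zero_le _), coeff_zero]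
    exact ⟨fun _ => 0, fun x => by simp [this]⟩
  | n + 1, P, h => by
    obtain ⟨h1, h2⟩ := Tp_monic ε n
    obtain ⟨c, hc⟩ := exists_coefT ε n (P - C (P.coeff n) * Tp ε n) (by
      intro m hm
      rw [coeff_sub, coeff_C_mul]
      rcases Nat.eq_or_lt_of_le hm with h3 | h3
      · subst h3
        have h4 : (Tp ε n).coeff n = 1 := by
          have := h1.coeff_natDegree
          rwa [h2] at this
        rw [h4]
        ring
      · have h4 : (Tp ε n).coeff m = 0 := coeff_eq_zero_of_natDegree_lt (by rw [h2]; exact h3)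
        rw [h m h3, h4]
        ring)
    refine ⟨fun j => if j = n then P.coeff n else c j, fun x => ?_⟩
    have h3 := hc x
    rw [map_sub, map_mul, aeval_C] at h3
    rw [Finset.sum_range_succ]
    have h4 : ∑ j ∈ Finset.range n, ((if j = n then P.coeff n else c j : ℤ) : ℝ) *
        aeval x (Tp ε j) = ∑ j ∈ Finset.range n, (c j : ℝ) * aeval x (Tp ε j) := by
      refine Finset.sum_congr rfl fun j hj => ?_
      rw [if_neg (by rw [Finset.mem_range] at hj; omega)]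
    have h5 : (fun j => if j = n then P.coeff n else c j) n = P.coeff n := if_pos rfl
    rw [h4, h5, ← h3]
    simp

/-- reduction of all characters -/
theorem char_relT {P : ℤ[X]} (hP : P.Monic) {ε : ℕ} (hε : ε ≤ 1) (k : ℕ) :
    ∃ c : ℕ → ℤ, ∀ x : ℝ, aeval (x ^ 2 - 2) P = 0 →
      xr (2 * k + ε) x = ∑ j ∈ Finset.range P.natDegree, (c j : ℝ) * xr (2 * j + ε) x := by
  by_cases h0 : P = 1
  · exact ⟨fun _ => 0, fun x hx => by
      rw [h0, map_one] at hx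
      exact absurd hx one_ne_zero⟩
  obtain ⟨c, hc⟩ := exists_coefT ε P.natDegree (Tp ε k %ₘ P) (by
    intro m hm
    apply coeff_eq_zero_of_natDegree_lt
    exact lt_of_lt_of_le (natDegree_modByMonic_lt _ hP h0) hm)
  refine ⟨c, fun x hx => ?_⟩
  have h1 := modByMonic_add_div (Tp ε k) P
  have h2 : aeval (x ^ 2 - 2) (Tp ε k) = aeval (x ^ 2 - 2) (Tp ε k %ₘ P) := by
    conv_lhs => rw [← h1]
    rw [map_add, map_mul, hx, zero_mul, add_zero]
  rw [xr_Tp x hε, h2, hc, Finset.mul_sum]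
  refine Finset.sum_congr rfl fun j _ => ?_
  rw [xr_Tp x hε]
  ring

/-- the integral polynomial of a power-closed family -/
theorem int_closed {S : Finset ℕ} {u : ℕ → ℂ} (hu : ∀ p : ℕ, p.Prime → p ∉ S → u p ≠ 0)
    (W : Finset ℝ) (hcl : ∀ p : ℕ, p.Prime → p ∉ S → ∀ n : ℕ, 1 ≤ n → ∃ w ∈ W,
      u p ^ n + (u p ^ n)⁻¹ = ((w - 2 : ℝ) : ℂ)) :
    (∀ p : ℕ, p.Prime → p ∉ S → 0 < orderOf (u p) ∧ orderOf (u p) < 2 * W.card) ∧
    ∃ P : ℤ[X], P.Monic ∧ P.natDegree ≤ W.card ∧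
      (∀ p : ℕ, p.Prime → p ∉ S → ∀ n : ℕ, 1 ≤ n → ∀ y : ℝ, u p ^ n + (u p ^ n)⁻¹ = (y : ℂ) →
        aeval y P = 0) ∧ aeval (2 : ℝ) P = 0 ∧ ((0 : ℝ) ∈ W → aeval (-2 : ℝ) P = 0) := by
  classical
  set V : Finset ℝ := W.image fun w => w - 2 with hV
  have hVc : V.card ≤ W.card := Finset.card_image_le
  have hcl' : ∀ p : ℕ, p.Prime → p ∉ S → ∀ n : ℕ, 1 ≤ n → ∃ v ∈ V,
      u p ^ n + (u p ^ n)⁻¹ = (v : ℂ) := by
    intro p hp hpS n hn
    obtain ⟨w, hw, hw2⟩ := hcl p hp hpS n hn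
    exact ⟨w - 2, Finset.mem_image_of_mem _ hw, hw2⟩
  have hord : ∀ p : ℕ, p.Prime → p ∉ S → 0 < orderOf (u p) ∧ orderOf (u p) / 2 + 1 ≤ V.card :=
    fun p hp hpS => root_unity (hu p hp hpS) (hcl' p hp hpS)
  refine ⟨fun p hp hpS => ?_, ?_⟩
  · obtain ⟨h1, h2⟩ := hord p hp hpS
    exact ⟨h1, by omega⟩
  set V' : Finset ℝ := V.filter fun v => (∃ p n : ℕ, p.Prime ∧ p ∉ S ∧ 1 ≤ n ∧
    u p ^ n + (u p ^ n)⁻¹ = (v : ℂ)) ∨ v = -2 ∨ v = 2 with hV'
  have hmem : ∀ p : ℕ, p.Prime → p ∉ S → ∀ n : ℕ, 1 ≤ n →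
      ∃ v ∈ V', u p ^ n + (u p ^ n)⁻¹ = (v : ℂ) := by
    intro p hp hpS n hn
    obtain ⟨v, hv, hv2⟩ := hcl' p hp hpS n hn
    exact ⟨v, Finset.mem_filter.2 ⟨hv, Or.inl ⟨p, n, hp, hpS, hn, hv2⟩⟩, hv2⟩
  obtain ⟨p₀, hp₀S, hp₀⟩ : ∃ p : ℕ, p ∉ S ∧ p.Prime := by
    obtain ⟨p, hp1, hp2⟩ := Nat.exists_infinite_primes (S.sup id + 1)
    refine ⟨p, fun h => ?_, hp2⟩
    have : p ≤ S.sup id := Finset.le_sup (f := id) h
    omega
  have hdos : (2 : ℝ) ∈ V' := by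
    obtain ⟨v, hv, hv2⟩ := hmem p₀ hp₀ hp₀S (orderOf (u p₀)) (hord p₀ hp₀ hp₀S).1
    rw [pow_orderOf_eq_one] at hv2
    have h3 : v = 2 := by
      have : ((v : ℝ) : ℂ) = ((2 : ℝ) : ℂ) := by
        rw [← hv2]
        norm_num
      exact_mod_cast this
    rwa [h3] at hv
  obtain ⟨Pz, hPm, hPd, hPe⟩ := int_rel (V := V') (by
    intro v hv
    obtain ⟨-, ⟨p, n, hp, hpS, hn, hv2⟩ | h3 | h3⟩ := Finset.mem_filter.1 hv
    · refine ⟨u p ^ n, orderOf (u p), (hord p hp hpS).1, ?_, hv2, fun m hm => ?_⟩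
      · rw [← pow_mul, mul_comm, pow_mul, pow_orderOf_eq_one, one_pow]
      · obtain ⟨w, hw, hw2⟩ := hmem p hp hpS (n * m) (Nat.mul_pos hn hm)
        exact ⟨w, hw, by rw [← pow_mul]; exact hw2⟩
    · refine ⟨-1, 2, by norm_num, by norm_num, by rw [h3]; norm_num, fun m _ => ?_⟩
      rcases Nat.even_or_odd m with hm | hm
      · exact ⟨2, hdos, by rw [hm.neg_one_pow]; norm_num⟩
      · exact ⟨-2, h3 ▸ hv, by rw [hm.neg_one_pow]; norm_num⟩
    · exact ⟨1, 1, by norm_num, by norm_num, by rw [h3]; norm_num, fun m _ =>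
        ⟨2, hdos, by norm_num⟩⟩)
  have hroot : ∀ v ∈ V', aeval v Pz = 0 := by
    intro v hv
    rw [hPe]
    exact Finset.prod_eq_zero hv (sub_self v)
  refine ⟨Pz, hPm, ?_, fun p hp hpS n hn y hy => ?_, hroot 2 hdos, fun h0 => ?_⟩
  · rw [hPd]
    exact (Finset.card_filter_le _ _).trans hVc
  · obtain ⟨v, hv, hv2⟩ := hmem p hp hpS n hn
    have : y = v := by
      rw [hy] at hv2
      exact_mod_cast hv2
    rw [this]
    exact hroot v hv
  · refine hroot (-2) (Finset.mem_filter.2 ⟨?_, Or.inr (Or.inl rfl)⟩)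
    rw [hV, Finset.mem_image]
    exact ⟨0, h0, by norm_num⟩

end Pool.Agent.V8H27.NP
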