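import Pool.Agent.V8H27.NP.Int

/-!
# Products and quotients of L-functions with their contragredients
-/

set_option autoImplicit false

namespace Pool.Agent.V8H27.NP

open Filter Topology Complex Set Pool.Agent.N210.FV Pool.Agent.N210.FW Pool.Agent.N845.SP

/-- a quotient `N/D` with Euler product `∏ exp (-E p s)`, its contragredient `N'/D'`, gamma factor
`Γ_ℝ(s)^(g.1) Γ_ℝ(s+1)^(g.2)` -/
structure Nc (S Q : Finset ℕ) (E E' : ℕ → ℂ → ℂ) (g : ℤ × ℤ) (N D N' D' : ℂ → ℂ) : Prop where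
  diffN : Differentiable ℂ N
  diffD : Differentiable ℂ D
  diffN' : Differentiable ℂ N'
  diffD' : Differentiable ℂ D'
  order : ∃ C : ℝ, ∀ s, ‖N s‖ ≤ Real.exp (C * (1 + ‖s‖) ^ (3 / 2 : ℝ)) ∧
    ‖D s‖ ≤ Real.exp (C * (1 + ‖s‖) ^ (3 / 2 : ℝ)) ∧
    ‖N' s‖ ≤ Real.exp (C * (1 + ‖s‖) ^ (3 / 2 : ℝ)) ∧
    ‖D' s‖ ≤ Real.exp (C * (1 + ‖s‖) ^ (3 / 2 : ℝ))
  neN : ∀ s : ℂ, 1 < s.re → N s ≠ 0
  neD : ∀ s : ℂ, 1 < s.re → D s ≠ 0
  neN' : ∀ s : ℂ, 1 < s.re → N' s ≠ 0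
  neD' : ∀ s : ℂ, 1 < s.re → D' s ≠ 0
  euler : ∀ s : ℂ, 1 < s.re → Tendsto (fun X : ℕ =>
    ∏ p ∈ (Finset.range X).filter (fun p => p.Prime ∧ p ∉ S), exp (-(E p s))) atTop
      (𝓝 (N s / D s))
  euler' : ∀ s : ℂ, 1 < s.re → Tendsto (fun X : ℕ =>
    ∏ p ∈ (Finset.range X).filter (fun p => p.Prime ∧ p ∉ S), exp (-(E' p s))) atTop
      (𝓝 (N' s / D' s))
  fe : ∃ (a0 b0 a1 b1 : ℕ) (l l' m m' : List (ℕ × ℂ)) (A : ℝ) (ε : ℂ),
    (a0 : ℤ) - b0 = g.1 ∧ (a1 : ℤ) - b1 = g.2 ∧ 0 < A ∧ ε ≠ 0 ∧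
    (∀ x ∈ l ++ l' ++ m ++ m', x.1.Prime ∧ x.1 ∈ Q) ∧
    ∀ s, (A : ℂ) ^ s * (Gm 0 (1 - s) ^ a0 * Gm 0 s ^ b0 * Gm 1 (1 - s) ^ a1 * Gm 1 s ^ b1) *
        ef l' (1 - s) * ef m s * (N s * D' (1 - s)) =
      ε * (A : ℂ) ^ (1 - s) * (Gm 0 s ^ a0 * Gm 0 (1 - s) ^ b0 * Gm 1 s ^ a1 * Gm 1 (1 - s) ^ b1) *
        ef l s * ef m' (1 - s) * (N' (1 - s) * D s)

variable {S Q : Finset ℕ} {E E' F F' : ℕ → ℂ → ℂ} {g g' : ℤ × ℤ}
  {N D N' D' N₁ D₁ N₁' D₁' : ℂ → ℂ}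

theorem Nc.one : Nc S Q (fun _ _ => 0) (fun _ _ => 0) 0 (fun _ => 1) (fun _ => 1) (fun _ => 1)
    (fun _ => 1) := by
  refine ⟨differentiable_const _, differentiable_const _, differentiable_const _,
    differentiable_const _, ⟨0, fun s => ?_⟩,
    fun _ _ => one_ne_zero, fun _ _ => one_ne_zero, fun _ _ => one_ne_zero,
    fun _ _ => one_ne_zero, fun s _ => ?_, fun s _ => ?_,
    ⟨0, 0, 0, 0, [], [], [], [], 1, 1, by simp, by simp, by norm_num, one_ne_zero, by simp,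
      fun s => ?_⟩⟩
  · simp
  · simp
  · simp
  · simp [ef]

theorem Nc.mul (h : Nc S Q E E' g N D N' D') (h' : Nc S Q F F' g' N₁ D₁ N₁' D₁') :
    Nc S Q (fun p s => E p s + F p s) (fun p s => E' p s + F' p s) (g + g')
      (fun s => N s * N₁ s) (fun s => D s * D₁ s) (fun s => N' s * N₁' s)
      (fun s => D' s * D₁' s) := by
  obtain ⟨C, hC⟩ := h.order
  obtain ⟨C', hC'⟩ := h'.order
  have heul : ∀ {A B : ℕ → ℂ → ℂ} {a b : ℂ} {s : ℂ}, Tendsto (fun X : ℕ =>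
      ∏ p ∈ (Finset.range X).filter (fun p => p.Prime ∧ p ∉ S), exp (-(A p s))) atTop (𝓝 a) →
      Tendsto (fun X : ℕ =>
      ∏ p ∈ (Finset.range X).filter (fun p => p.Prime ∧ p ∉ S), exp (-(B p s))) atTop (𝓝 b) →
      Tendsto (fun X : ℕ =>
      ∏ p ∈ (Finset.range X).filter (fun p => p.Prime ∧ p ∉ S), exp (-(A p s + B p s))) atTop
        (𝓝 (a * b)) := by
    intro A B a b s h1 h2
    refine (h1.mul h2).congr fun X => ?_
    rw [← Finset.prod_mul_distrib]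
    refine Finset.prod_congr rfl fun p _ => ?_
    rw [← exp_add]
    congr 1
    ring
  refine ⟨h.diffN.mul h'.diffN, h.diffD.mul h'.diffD, h.diffN'.mul h'.diffN',
    h.diffD'.mul h'.diffD', ⟨C + C', fun s => ?_⟩,
    fun s hs => mul_ne_zero (h.neN s hs) (h'.neN s hs),
    fun s hs => mul_ne_zero (h.neD s hs) (h'.neD s hs),
    fun s hs => mul_ne_zero (h.neN' s hs) (h'.neN' s hs),
    fun s hs => mul_ne_zero (h.neD' s hs) (h'.neD' s hs), fun s hs => ?_, fun s hs => ?_, ?_⟩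
  · rw [add_mul, Real.exp_add, norm_mul, norm_mul, norm_mul, norm_mul]
    obtain ⟨a1, a2, a3, a4⟩ := hC s
    obtain ⟨b1, b2, b3, b4⟩ := hC' s
    exact ⟨mul_le_mul a1 b1 (norm_nonneg _) (Real.exp_pos _).le,
      mul_le_mul a2 b2 (norm_nonneg _) (Real.exp_pos _).le,
      mul_le_mul a3 b3 (norm_nonneg _) (Real.exp_pos _).le,
      mul_le_mul a4 b4 (norm_nonneg _) (Real.exp_pos _).le⟩
  · rw [mul_div_mul_comm]
    exact heul (h.euler s hs) (h'.euler s hs)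
  · rw [mul_div_mul_comm]
    exact heul (h.euler' s hs) (h'.euler' s hs)
  · obtain ⟨a0, b0, a1, b1, l, l', m, m', A, ε, h0, h1, hA, hε, hl, hf⟩ := h.fe
    obtain ⟨c0, d0, c1, d1, k, k', n, n', B, δ, h0', h1', hB, hδ, hl', hf'⟩ := h'.fe
    refine ⟨a0 + c0, b0 + d0, a1 + c1, b1 + d1, l ++ k, l' ++ k', m ++ n, m' ++ n', A * B, ε * δ,
      ?_, ?_, mul_pos hA hB, mul_ne_zero hε hδ, ?_, fun s => ?_⟩
    · push_cast
      simp only [Prod.fst_add]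
      omega
    · push_cast
      simp only [Prod.snd_add]
      omega
    · intro x hx
      have h2 : x ∈ l ++ l' ++ m ++ m' ∨ x ∈ k ++ k' ++ n ++ n' := by
        simp only [List.mem_append] at hx ⊢
        tauto
      rcases h2 with h2 | h2
      · exact hl x h2
      · exact hl' x h2
    · have e1 := hf s
      have e2 := hf' s
      rw [cpow_mul_pos hA hB, cpow_mul_pos hA hB]
      simp only [ef_append, pow_add]
      calc _ = ((A : ℂ) ^ s * (Gm 0 (1 - s) ^ a0 * Gm 0 s ^ b0 * Gm 1 (1 - s) ^ a1 * Gm 1 s ^ b1) *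
          ef l' (1 - s) * ef m s * (N s * D' (1 - s))) * ((B : ℂ) ^ s *
          (Gm 0 (1 - s) ^ c0 * Gm 0 s ^ d0 * Gm 1 (1 - s) ^ c1 * Gm 1 s ^ d1) *
          ef k' (1 - s) * ef n s * (N₁ s * D₁' (1 - s))) := by ring
        _ = _ := by
          rw [e1, e2]
          ring

theorem Nc.inv (h : Nc S Q E E' g N D N' D') :
    Nc S Q (fun p s => -E p s) (fun p s => -E' p s) (-g) D N D' N' := by
  obtain ⟨C, hC⟩ := h.order
  have heul : ∀ {A : ℕ → ℂ → ℂ} {a : ℂ} {s : ℂ}, a ≠ 0 → Tendsto (fun X : ℕ =>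
      ∏ p ∈ (Finset.range X).filter (fun p => p.Prime ∧ p ∉ S), exp (-(A p s))) atTop (𝓝 a) →
      Tendsto (fun X : ℕ =>
      ∏ p ∈ (Finset.range X).filter (fun p => p.Prime ∧ p ∉ S), exp (-(-A p s))) atTop
        (𝓝 a⁻¹) := by
    intro A a s ha h1
    refine (h1.inv₀ ha).congr fun X => ?_
    rw [← Finset.prod_inv_distrib]
    refine Finset.prod_congr rfl fun p _ => ?_
    rw [← exp_neg]
  refine ⟨h.diffD, h.diffN, h.diffD', h.diffN', ⟨C, fun s => ?_⟩, h.neD, h.neN, h.neD', h.neN',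
    fun s hs => ?_, fun s hs => ?_, ?_⟩
  · obtain ⟨a1, a2, a3, a4⟩ := hC s
    exact ⟨a2, a1, a4, a3⟩
  · rw [← inv_div]
    exact heul (div_ne_zero (h.neN s hs) (h.neD s hs)) (h.euler s hs)
  · rw [← inv_div]
    exact heul (div_ne_zero (h.neN' s hs) (h.neD' s hs)) (h.euler' s hs)
  · obtain ⟨a0, b0, a1, b1, l, l', m, m', q, ε, h0, h1, hq, hε, hl, hf⟩ := h.fe
    have hq0 : (q : ℂ) ≠ 0 := by exact_mod_cast hq.ne'
    refine ⟨b0, a0, b1, a1, m, m', l, l', q⁻¹, ε⁻¹, ?_, ?_, inv_pos.2 hq, inv_ne_zero hε, ?_,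
      fun s => ?_⟩
    · simp only [Prod.fst_neg]
      omega
    · simp only [Prod.snd_neg]
      omega
    · intro x hx
      refine hl x ?_
      simp only [List.mem_append] at hx ⊢
      tauto
    · have e1 := hf s
      have e2 : ((q⁻¹ : ℝ) : ℂ) ^ s = ((q : ℂ) ^ s)⁻¹ := by
        rw [ofReal_inv, ← ofReal_inv]
        have := cpow_mul_pos hq (inv_pos.2 hq) s
        rw [mul_inv_cancel₀ hq.ne', ofReal_one, one_cpow] at this
        exact (eq_inv_of_mul_eq_one_right this.symm)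
      have e3 : ((q⁻¹ : ℝ) : ℂ) ^ (1 - s) = (q : ℂ) ^ s * (q : ℂ)⁻¹ := by
        have h2 := cpow_mul_pos hq (inv_pos.2 hq) (1 - s)
        rw [mul_inv_cancel₀ hq.ne', ofReal_one, one_cpow] at h2
        rw [eq_inv_of_mul_eq_one_right h2.symm, cpow_sub _ _ hq0, cpow_one, inv_div]
        ring
      have e4 : (q : ℂ) ^ (1 - s) = (q : ℂ) * ((q : ℂ) ^ s)⁻¹ := by
        rw [cpow_sub _ _ hq0, cpow_one]
        ring
      rw [e2, e3]
      rw [e4] at e1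
      have h2 : (q : ℂ) ^ s ≠ 0 := by
        rw [cpow_def_of_ne_zero hq0]
        exact exp_ne_zero _
      set Q : ℂ := (q : ℂ) ^ s with hQ
      clear_value Q
      set G1 := Gm 0 (1 - s) ^ a0 * Gm 0 s ^ b0 * Gm 1 (1 - s) ^ a1 * Gm 1 s ^ b1 with hG1
      set G2 := Gm 0 s ^ a0 * Gm 0 (1 - s) ^ b0 * Gm 1 s ^ a1 * Gm 1 (1 - s) ^ b1 with hG2
      have e5 : Gm 0 (1 - s) ^ b0 * Gm 0 s ^ a0 * Gm 1 (1 - s) ^ b1 * Gm 1 s ^ a1 = G2 := by
        rw [hG2]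
        ring
      have e6 : Gm 0 s ^ b0 * Gm 0 (1 - s) ^ a0 * Gm 1 s ^ b1 * Gm 1 (1 - s) ^ a1 = G1 := by
        rw [hG1]
        ring
      rw [e5, e6]
      clear_value G1 G2
      field_simp
      field_simp at e1
      linear_combination -e1

theorem Nc.nat (h : Nc S Q E E' g N D N' D') (n : ℕ) :
    ∃ A B A' B', Nc S Q (fun p s => (n : ℂ) * E p s) (fun p s => (n : ℂ) * E' p s) (n • g)
      A B A' B' := by
  induction n with
  | zero =>
    refine ⟨fun _ => 1, fun _ => 1, fun _ => 1, fun _ => 1, ?_⟩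
    have := Nc.one (S := S) (Q := Q)
    simpa using this
  | succ n ih =>
    obtain ⟨A, B, A', B', h'⟩ := ih
    refine ⟨fun s => A s * N s, fun s => B s * D s, fun s => A' s * N' s, fun s => B' s * D' s, ?_⟩
    have h2 := h'.mul h
    have e1 : ∀ E : ℕ → ℂ → ℂ, (fun p s => (n : ℂ) * E p s + E p s) =
        fun p s => ((n + 1 : ℕ) : ℂ) * E p s := by
      intro E
      funext p s
      push_cast
      ring
    rw [e1, e1, ← succ_nsmul] at h2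
    exact h2

theorem Nc.int (h : Nc S Q E E' g N D N' D') (n : ℤ) :
    ∃ A B A' B', Nc S Q (fun p s => (n : ℂ) * E p s) (fun p s => (n : ℂ) * E' p s) (n • g)
      A B A' B' := by
  obtain ⟨m, rfl | rfl⟩ := n.eq_nat_or_neg
  · obtain ⟨A, B, A', B', h'⟩ := h.nat m
    exact ⟨A, B, A', B', by simpa using h'⟩
  · obtain ⟨A, B, A', B', h'⟩ := h.nat m
    refine ⟨B, A, B', A', ?_⟩
    have h2 := h'.inv
    have e1 : ∀ E : ℕ → ℂ → ℂ, (fun p s => -((m : ℂ) * E p s)) =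
        fun p s => (((-(m : ℤ) : ℤ)) : ℂ) * E p s := by
      intro E
      funext p s
      push_cast
      ring
    have e2 : -(m • g) = (-(m : ℤ)) • g := by
      rw [neg_smul, natCast_zsmul]
    rw [e1, e1, e2] at h2
    exact h2

theorem Nc.sum {ι : Type*} (J : Finset ι) {E E' : ι → ℕ → ℂ → ℂ} {g : ι → ℤ × ℤ}
    {N D N' D' : ι → ℂ → ℂ}
    (h : ∀ j ∈ J, Nc S Q (E j) (E' j) (g j) (N j) (D j) (N' j) (D' j)) (c : ι → ℤ) :
    ∃ A B A' B', Nc S Q (fun p s => ∑ j ∈ J, (c j : ℂ) * E j p s)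
      (fun p s => ∑ j ∈ J, (c j : ℂ) * E' j p s)
      (∑ j ∈ J, c j • g j) A B A' B' := by
  classical
  induction J using Finset.induction_on with
  | empty =>
    refine ⟨fun _ => 1, fun _ => 1, fun _ => 1, fun _ => 1, ?_⟩
    have := Nc.one (S := S) (Q := Q)
    simpa using this
  | insert i J hi ih =>
    obtain ⟨A1, B1, A1', B1', h1⟩ := ih fun j hj => h j (Finset.mem_insert_of_mem hj)
    obtain ⟨A2, B2, A2', B2', h2⟩ := (h i (Finset.mem_insert_self _ _)).int (c i)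
    refine ⟨fun s => A2 s * A1 s, fun s => B2 s * B1 s, fun s => A2' s * A1' s,
      fun s => B2' s * B1' s, ?_⟩
    have h3 := h2.mul h1
    simp only [Finset.sum_insert hi]
    exact h3

theorem Nc.congr (h : Nc S Q E E' g N D N' D')
    (hE : ∀ p : ℕ, p.Prime → p ∉ S → ∀ s : ℂ, 1 < s.re → E p s = F p s)
    (hE' : ∀ p : ℕ, p.Prime → p ∉ S → ∀ s : ℂ, 1 < s.re → E' p s = F' p s) :
    Nc S Q F F' g N D N' D' := by
  refine ⟨h.diffN, h.diffD, h.diffN', h.diffD', h.order, h.neN, h.neD, h.neN', h.neD',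
    fun s hs => ?_, fun s hs => ?_, h.fe⟩
  · refine (h.euler s hs).congr fun X => ?_
    refine Finset.prod_congr rfl fun p hp => ?_
    rw [Finset.mem_filter] at hp
    rw [hE p hp.2.1 hp.2.2 s hs]
  · refine (h.euler' s hs).congr fun X => ?_
    refine Finset.prod_congr rfl fun p hp => ?_
    rw [Finset.mem_filter] at hp
    rw [hE' p hp.2.1 hp.2.2 s hs]

/-- the functional equation with the exact gamma factor -/
theorem Nc.fe' (h : Nc S Q E E' g N D N' D') {x y : ℕ} (hx : g.1 = x) (hy : g.2 = y) :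
    ∃ (l l' m m' : List (ℕ × ℂ)) (A : ℝ) (ε : ℂ), 0 < A ∧ ε ≠ 0 ∧
    (∀ x ∈ l ++ l' ++ m ++ m', x.1.Prime ∧ x.1 ∈ Q) ∧
    ∀ s, (A : ℂ) ^ s * (Gm 0 (1 - s) ^ x * Gm 1 (1 - s) ^ y) *
        ef l' (1 - s) * ef m s * (N s * D' (1 - s)) =
      ε * (A : ℂ) ^ (1 - s) * (Gm 0 s ^ x * Gm 1 s ^ y) *
        ef l s * ef m' (1 - s) * (N' (1 - s) * D s) := by
  obtain ⟨a0, b0, a1, b1, l, l', m, m', q, ε, h0, h1, hq, hε, hl, hf⟩ := h.fe
  refine ⟨l, l', m, m', q, ε, hq, hε, hl, ?_⟩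
  have ha0 : a0 = b0 + x := by omega
  have ha1 : a1 = b1 + y := by omega
  subst ha0 ha1
  have hq0 : (q : ℂ) ≠ 0 := by exact_mod_cast hq.ne'
  have dq : Differentiable ℂ fun s : ℂ => (q : ℂ) ^ s := by
    have : (fun s : ℂ => (q : ℂ) ^ s) = fun s => exp (log (q : ℂ) * s) := by
      funext s
      rw [cpow_def_of_ne_zero hq0]
    rw [this]
    fun_prop
  have dl : ∀ k : List (ℕ × ℂ), (∀ x ∈ k, x ∈ l ++ l' ++ m ++ m') → Differentiable ℂ (ef k) :=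
    fun k hk => (ef_ent fun x hx => (hl x (hk x hx)).1.one_lt).diff
  have dl1 := dl l (by simp; tauto)
  have dl2 := dl l' (by simp; tauto)
  have dl3 := dl m (by simp; tauto)
  have dl4 := dl m' (by simp; tauto)
  have dG : ∀ i, Differentiable ℂ fun s => Gm i (1 - s) := fun i => refl_diff (Gm_diff i)
  have dqr : Differentiable ℂ fun s : ℂ => (q : ℂ) ^ (1 - s) := refl_diff dq
  have dlr2 : Differentiable ℂ fun s => ef l' (1 - s) := refl_diff dl2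
  have dlr4 : Differentiable ℂ fun s => ef m' (1 - s) := refl_diff dl4
  have dNr : Differentiable ℂ fun s => N' (1 - s) := refl_diff h.diffN'
  have dDr : Differentiable ℂ fun s => D' (1 - s) := refl_diff h.diffD'
  intro s
  refine cancel (f := fun s => (q : ℂ) ^ s * (Gm 0 (1 - s) ^ x * Gm 1 (1 - s) ^ y) *
        ef l' (1 - s) * ef m s * (N s * D' (1 - s)))
    (g := fun s => ε * (q : ℂ) ^ (1 - s) * (Gm 0 s ^ x * Gm 1 s ^ y) *
        ef l s * ef m' (1 - s) * (N' (1 - s) * D s))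
    (h := fun s => (Gm 0 s ^ b0 * Gm 0 (1 - s) ^ b0) * (Gm 1 s ^ b1 * Gm 1 (1 - s) ^ b1))
    ?_ ?_ ?_ ?_ (fun s => ?_) s
  · exact ((((dq.mul (((dG 0).pow x).mul ((dG 1).pow y))).mul dlr2).mul dl3).mul
      (h.diffN.mul dDr))
  · exact (((((dqr.const_mul ε).mul (((Gm_diff 0).pow x).mul ((Gm_diff 1).pow y))).mul dl1).mul
      dlr4).mul (dNr.mul h.diffD))
  · exact (((Gm_diff 0).pow b0).mul ((dG 0).pow b0)).mul (((Gm_diff 1).pow b1).mul ((dG 1).pow b1))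
  · have n0 : ∀ i n, ∃ s, Gm i s ^ n ≠ 0 := fun i n => pow_ne (Gm_ne i) n
    have n1 : ∀ i n, ∃ s, Gm i (1 - s) ^ n ≠ 0 := fun i n =>
      pow_ne (f := fun s => Gm i (1 - s)) (refl_ne (Gm_ne i)) n
    exact mul_nz (((Gm_diff 0).pow b0).mul ((dG 0).pow b0))
      (mul_nz ((Gm_diff 0).pow b0) (n0 0 b0) ((dG 0).pow b0) (n1 0 b0))
      (((Gm_diff 1).pow b1).mul ((dG 1).pow b1))
      (mul_nz ((Gm_diff 1).pow b1) (n0 1 b1) ((dG 1).pow b1) (n1 1 b1))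
  · have e1 := hf s
    simp only [pow_add] at e1
    linear_combination e1

end Pool.Agent.V8H27.NP
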