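import Pool.Agent.V8H27.NP.Def

/-!
# Relations between the twisted symmetric powers
-/

set_option autoImplicit false

namespace Pool.Agent.V8H27.NP

open Filter Topology Complex Set Pool.Agent.N210.FV Pool.Agent.N210.FW Pool.Agent.N845.SP

/-- unitary Satake parameters with central character `ω` -/
structure Dat (S : Finset ℕ) (α β : ℕ → ℂ) {M : ℕ} (ω : DirichletCharacter ℂ M) : Prop where
  ram : ∀ p : ℕ, p.Prime → p ∣ M → p ∈ S
  cen : ∀ p : ℕ, p.Prime → p ∉ S → α p * β p = ω p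
  uni : ∀ p : ℕ, p.Prime → p ∉ S → (starRingEnd ℂ) (α p + β p) = (α p)⁻¹ + (β p)⁻¹

/-- square root of the central character -/
noncomputable def sq {M : ℕ} (ω : DirichletCharacter ℂ M) (p : ℕ) : ℂ := ω p ^ (1 / 2 : ℂ)

/-- normalised Satake parameter -/
noncomputable def nm (α : ℕ → ℂ) {M : ℕ} (ω : DirichletCharacter ℂ M) (p : ℕ) : ℂ := α p / sq ω p

section

variable {S : Finset ℕ} {α β : ℕ → ℂ} {M : ℕ} {ω : DirichletCharacter ℂ M}

theorem chi_norm {q : ℕ} [NeZero q] (χ : DirichletCharacter ℂ q) {p : ℕ} (hp : p.Prime)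
    (hq : p ∉ q.primeFactors) : ‖χ p‖ = 1 := by
  have h : IsUnit ((p : ℕ) : ZMod q) := by
    rw [ZMod.isUnit_iff_coprime, hp.coprime_iff_not_dvd]
    exact fun h => hq (Nat.mem_primeFactors.2 ⟨hp, h, NeZero.ne q⟩)
  obtain ⟨u, hu⟩ := h
  rw [← hu]
  exact DirichletCharacter.unit_norm_eq_one χ u

variable [NeZero M]

theorem Dat.norm (h : Dat S α β ω) {p : ℕ} (hp : p.Prime) (hpS : p ∉ S) : ‖ω p‖ = 1 :=
  chi_norm ω hp fun h1 => hpS (h.ram p hp (Nat.dvd_of_mem_primeFactors h1))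

theorem Dat.om_ne (h : Dat S α β ω) {p : ℕ} (hp : p.Prime) (hpS : p ∉ S) : ω p ≠ 0 := by
  intro h0
  have := h.norm hp hpS
  rw [h0, norm_zero] at this
  exact zero_ne_one this

omit [NeZero M] in
theorem sq_sq (p : ℕ) : sq ω p ^ 2 = ω p := by
  unfold sq
  rw [← cpow_nat_mul]
  norm_num

theorem Dat.sq_norm (h : Dat S α β ω) {p : ℕ} (hp : p.Prime) (hpS : p ∉ S) : ‖sq ω p‖ = 1 := by
  have h1 : ‖sq ω p‖ ^ 2 = 1 := by rw [← norm_pow, sq_sq, h.norm hp hpS]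
  have h2 : 0 ≤ ‖sq ω p‖ := norm_nonneg _
  nlinarith

theorem Dat.sq_ne (h : Dat S α β ω) {p : ℕ} (hp : p.Prime) (hpS : p ∉ S) : sq ω p ≠ 0 := by
  intro h0
  have := h.sq_norm hp hpS
  rw [h0, norm_zero] at this
  exact zero_ne_one this

theorem Dat.al_ne (h : Dat S α β ω) {p : ℕ} (hp : p.Prime) (hpS : p ∉ S) : α p ≠ 0 := by
  intro h0
  have := h.cen p hp hpS
  rw [h0, zero_mul] at this
  exact h.om_ne hp hpS this.symm

theorem Dat.be_ne (h : Dat S α β ω) {p : ℕ} (hp : p.Prime) (hpS : p ∉ S) : β p ≠ 0 := by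
  intro h0
  have := h.cen p hp hpS
  rw [h0, mul_zero] at this
  exact h.om_ne hp hpS this.symm

theorem Dat.nm_ne (h : Dat S α β ω) {p : ℕ} (hp : p.Prime) (hpS : p ∉ S) : nm α ω p ≠ 0 :=
  div_ne_zero (h.al_ne hp hpS) (h.sq_ne hp hpS)

theorem Dat.nm_inv (h : Dat S α β ω) {p : ℕ} (hp : p.Prime) (hpS : p ∉ S) :
    (nm α ω p)⁻¹ = β p / sq ω p := by
  have h1 := h.cen p hp hpS
  have h2 := sq_sq (ω := ω) p
  have h3 := h.al_ne hp hpS
  have h4 := h.sq_ne hp hpS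
  unfold nm
  rw [inv_div, div_eq_div_iff h3 h4]
  rw [← h2] at h1
  linear_combination -h1

/-- the normalised trace is real -/
theorem Dat.real (h : Dat S α β ω) {p : ℕ} (hp : p.Prime) (hpS : p ∉ S) :
    ∃ x : ℝ, nm α ω p + (nm α ω p)⁻¹ = x ∧ x ^ 2 = ‖α p + β p‖ ^ 2 := by
  have h1 : nm α ω p + (nm α ω p)⁻¹ = (α p + β p) / sq ω p := by
    rw [h.nm_inv hp hpS]
    unfold nm
    ring
  have h2 := h.uni p hp hpS
  have h3 := h.al_ne hp hpS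
  have h4 := h.be_ne hp hpS
  have h5 := h.sq_ne hp hpS
  have h6 := h.cen p hp hpS
  have hs := sq_sq (ω := ω) p
  have hsc : (starRingEnd ℂ) (sq ω p) = (sq ω p)⁻¹ := by
    rw [Complex.inv_def, Complex.normSq_eq_norm_sq, h.sq_norm hp hpS]
    simp
  have h7 : (starRingEnd ℂ) ((α p + β p) / sq ω p) = (α p + β p) / sq ω p := by
    rw [map_div₀, h2, hsc]
    field_simp
    rw [hs, ← h6]
    ring
  obtain ⟨x, hx⟩ := Complex.conj_eq_iff_real.1 h7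
  refine ⟨x, by rw [h1, hx], ?_⟩
  have h8 : ‖(α p + β p) / sq ω p‖ = ‖α p + β p‖ := by
    rw [norm_div, h.sq_norm hp hpS, div_one]
  rw [← h8, hx, Complex.norm_real, Real.norm_eq_abs, sq_abs]

theorem Dat.par_eq (h : Dat S α β ω) {q : ℕ} (χ : DirichletCharacter ℂ q) {p : ℕ} (hp : p.Prime)
    (hpS : p ∉ S) {k i : ℕ} (hi : i ≤ k) :
    par α β k χ p i = χ p * sq ω p ^ k * bs (nm α ω) k p i := by
  have h1 := h.nm_inv hp hpS
  have h2 := h.nm_ne hp hpS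
  have h5 := h.sq_ne hp hpS
  have ha : α p = sq ω p * nm α ω p := by
    unfold nm
    field_simp
  have hb : β p = sq ω p * (nm α ω p)⁻¹ := by
    rw [h1]
    field_simp
  unfold par bs
  rw [ha, hb]
  have e1 : nm α (M := M) ω p ^ ((k : ℤ) - 2 * i) = nm α ω p ^ (k - i) * ((nm α ω p)⁻¹) ^ i := by
    rw [inv_pow, ← zpow_natCast, ← zpow_natCast, ← zpow_neg, ← zpow_add₀ h2]
    congr 1
    push_cast [Nat.cast_sub hi]
    ring
  have e2 : sq ω p ^ k = sq ω p ^ (k - i) * sq ω p ^ i := by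
    rw [← pow_add, Nat.sub_add_cancel hi]
  rw [e1, e2, mul_pow, mul_pow]
  ring

omit [NeZero M] in
theorem ch_inv (k : ℕ) (u : ℂ) : ch k u⁻¹ = ch k u := by
  unfold ch
  rw [← Finset.sum_range_reflect]
  refine Finset.sum_congr rfl fun i hi => ?_
  rw [Finset.mem_range] at hi
  rw [inv_zpow, ← zpow_neg]
  congr 1
  have : ((k + 1 - 1 - i : ℕ) : ℤ) = (k : ℤ) - i := by omega
  rw [this]
  ring

/-- power sums of the doubled parameters -/
theorem Dat.ps_dbl (h : Dat S α β ω) {q : ℕ} (χ : DirichletCharacter ℂ q) {p : ℕ} (hp : p.Prime)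
    (hpS : p ∉ S) (k n : ℕ) :
    ps (Finset.range ((k + 1) + (k + 1))) (dbl (k + 1) (par α β k χ)) p n =
      ((χ p * sq ω p ^ k) ^ n + ((χ p * sq ω p ^ k) ^ n)⁻¹) * ch k (nm α ω p ^ n) := by
  unfold ps
  rw [sum_dbl (k + 1) (par α β k χ) p (fun y => y ^ n), add_mul]
  have hpar : ∀ i ∈ Finset.range (k + 1), par α β k χ p i =
      χ p * sq ω p ^ k * bs (nm α ω) k p i := fun i hi => by
    rw [Finset.mem_range] at hi
    exact h.par_eq χ hp hpS (by omega)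
  have hb : ∀ i, bs (nm α ω) k p i ^ n = (nm α ω p ^ n) ^ ((k : ℤ) - 2 * i) := by
    intro i
    unfold bs
    rw [← zpow_natCast, ← zpow_mul, ← zpow_natCast, ← zpow_mul, mul_comm]
  congr 1
  · unfold ch
    rw [Finset.mul_sum]
    refine Finset.sum_congr rfl fun i hi => ?_
    rw [hpar i hi, mul_pow, hb]
  · rw [← ch_inv]
    unfold ch
    rw [Finset.mul_sum]
    refine Finset.sum_congr rfl fun i hi => ?_
    rw [hpar i hi, inv_pow, mul_pow, hb, mul_inv, inv_zpow]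

/-- bound of the doubled parameters -/
theorem Dat.dbl_le (h : Dat S α β ω) {q : ℕ} [NeZero q] (χ : DirichletCharacter ℂ q) {p : ℕ}
    (hp : p.Prime) (hpS : p ∉ S ∪ q.primeFactors) {r₀ : ℝ} (h1 : 1 ≤ r₀)
    (ht : ‖nm α ω p‖ ≤ r₀) (ht' : ‖(nm α ω p)⁻¹‖ ≤ r₀) {k K : ℕ} (hk : k ≤ K) {i : ℕ}
    (hi : i ∈ Finset.range ((k + 1) + (k + 1))) : ‖dbl (k + 1) (par α β k χ) p i‖ ≤ r₀ ^ K := by
  rw [Finset.mem_union, not_or] at hpS
  rw [Finset.mem_range] at hi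
  have hθ : ‖χ p * sq ω p ^ k‖ = 1 := by
    rw [norm_mul, norm_pow, chi_norm χ hp hpS.2, h.sq_norm hp hpS.1]
    simp
  unfold dbl
  split_ifs with h2
  · rw [h.par_eq χ hp hpS.1 (by omega), norm_mul, hθ, one_mul]
    exact bs_le h1 ht ht' hk (Finset.mem_range.2 h2)
  · rw [h.par_eq χ hp hpS.1 (by omega), mul_inv, norm_mul, norm_inv, hθ, inv_one, one_mul]
    have e : (bs (nm α ω) k p (i - (k + 1)))⁻¹ = bs (nm α ω) k p (k - (i - (k + 1))) := by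
      unfold bs
      rw [← zpow_neg]
      congr 1
      have : ((k - (i - (k + 1)) : ℕ) : ℤ) = (k : ℤ) - ((i - (k + 1) : ℕ) : ℤ) := by omega
      rw [this]
      ring
    rw [e]
    exact bs_le h1 ht ht' hk (Finset.mem_range.2 (by omega))

theorem Dat.dbl_bnd (h : Dat S α β ω) {q : ℕ} [NeZero q] (χ : DirichletCharacter ℂ q)
    {S' : Finset ℕ} (hSS : S ∪ q.primeFactors ⊆ S') {r₀ : ℝ} (h1 : 1 ≤ r₀) {k K : ℕ} (hk : k ≤ K)
    (ht : ∀ p : PS S', ‖nm α ω p‖ ≤ r₀) (ht' : ∀ p : PS S', ‖(nm α ω p)⁻¹‖ ≤ r₀)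
    (hl : ∀ p : PS S', 4 * (r₀ ^ K) ^ 2 ≤ (p : ℕ)) :
    Bnd S' (ps (Finset.range ((k + 1) + (k + 1))) (dbl (k + 1) (par α β k χ)))
      (2 * (K + 1)) (r₀ ^ K) := by
  refine ⟨by positivity, one_le_pow₀ h1, fun p n => ?_, hl⟩
  unfold ps
  refine (norm_sum_le _ _).trans ?_
  have h2 : ∀ i ∈ Finset.range ((k + 1) + (k + 1)), ‖dbl (k + 1) (par α β k χ) p i ^ n‖ ≤
      (r₀ ^ K) ^ n := by
    intro i hi
    rw [norm_pow]
    have h3 := h.dbl_le χ p.2.1 (fun hh => p.2.2 (hSS hh)) h1 (ht p) (ht' p) hk hi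
    gcongr
  refine (Finset.sum_le_card_nsmul _ _ _ h2).trans ?_
  rw [nsmul_eq_mul, Finset.card_range]
  have h3 : ((k + 1 + (k + 1) : ℕ) : ℝ) ≤ 2 * ((K : ℝ) + 1) := by
    push_cast
    have : (k : ℝ) ≤ K := by exact_mod_cast hk
    linarith
  gcongr

/-- **relations** -/
theorem Dat.rel (h : Dat S α β ω) {r : ℂ} {e₁ e₂ K Q : ℕ} [NeZero Q]
    {X : ℕ → DirichletCharacter ℂ Q} {N D N' D' : ℕ → ℂ → ℂ}
    (hL : ∀ k ≤ K, TwL S α β r e₁ e₂ k (X k) (N k) (D k) (N' k) (D' k))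
    (T : Finset ℕ) (V : Finset ℝ)
    (hT : ∀ p : ℕ, p.Prime → p ∉ S → p ∉ T → ∃ v ∈ V, nm α ω p + (nm α ω p)⁻¹ = (v : ℂ))
    (c : ℕ → ℝ) (θ : ℕ → ℂ)
    (hθ : ∀ k ≤ K, c k ≠ 0 → ∀ p : ℕ, p.Prime → p ∉ S → X k p * sq ω p ^ k = θ p)
    (hc : ∀ v ∈ V, ∑ j ∈ Finset.range (K + 1), c j * xr j v = 0) :
    (∀ p : ℕ, p.Prime → p ∉ S ∪ Q.primeFactors → ∀ n : ℕ, 1 ≤ n → ∀ y : ℝ,
      nm α ω p ^ n + (nm α ω p ^ n)⁻¹ = (y : ℂ) → θ p ^ n + (θ p ^ n)⁻¹ ≠ 0 →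
      ∑ j ∈ Finset.range (K + 1), c j * xr j y = 0) ∧
    ∀ z : ℂ, ∑ j ∈ Finset.range (K + 1), c j *
      ((mo (gi (gam r e₁ e₂ j (pc (X j)) ++ gam (-r) e₁ e₂ j (pc (X j)))) (1 - z) : ℝ) -
      mo (gi (gam r e₁ e₂ j (pc (X j)) ++ gam (-r) e₁ e₂ j (pc (X j)))) z) = 0 := by
  classical
  set r₀ : ℝ := 1 + ∑ v ∈ V, |v| with hr₀
  have hs0 : 0 ≤ ∑ v ∈ V, |v| := Finset.sum_nonneg fun v _ => abs_nonneg _
  have hr1 : 1 ≤ r₀ := by linarith
  obtain ⟨B, hB⟩ := exists_nat_ge (4 * (r₀ ^ K) ^ 2)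
  set S₀ : Finset ℕ := S ∪ Q.primeFactors with hS₀
  set S' : Finset ℕ := S₀ ∪ T ∪ Finset.range B with hS'
  have hSS : S₀ ⊆ S' := fun p hp => Finset.mem_union_left _ (Finset.mem_union_left _ hp)
  have hnS : ∀ p : PS S', (p : ℕ) ∉ S := fun p hp => p.2.2 (hSS (Finset.mem_union_left _ hp))
  have hnT : ∀ p : PS S', (p : ℕ) ∉ T := fun p h1 =>
    p.2.2 (Finset.mem_union_left _ (Finset.mem_union_right _ h1))
  have hpB : ∀ p : PS S', B ≤ (p : ℕ) := by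
    intro p
    by_contra h1
    push Not at h1
    exact p.2.2 (Finset.mem_union_right _ (Finset.mem_range.2 h1))
  have hV : ∀ p : PS S', ∃ v ∈ V, nm α ω p + (nm α ω p)⁻¹ = (v : ℂ) := fun p =>
    hT p p.2.1 (hnS p) (hnT p)
  choose v hv hv2 using hV
  have hzn : ∀ p : PS S', 1 + ‖((v p : ℝ) : ℂ)‖ ≤ r₀ := by
    intro p
    rw [Complex.norm_real, Real.norm_eq_abs, hr₀]
    have h1 : |v p| ≤ ∑ v ∈ V, |v| :=
      Finset.single_le_sum (f := fun v => |v|) (fun v _ => abs_nonneg _) (hv p)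
    linarith
  have ht1 : ∀ p : PS S', ‖nm α ω p‖ ≤ r₀ := fun p => (root_bd (hv2 p)).trans (hzn p)
  have ht2 : ∀ p : PS S', ‖(nm α ω p)⁻¹‖ ≤ r₀ := fun p =>
    (root_bd (u := (nm α ω p)⁻¹) (z := ((v p : ℝ) : ℂ)) (by
      rw [inv_inv, ← hv2 p]
      ring)).trans (hzn p)
  have hl : ∀ p : PS S', 4 * (r₀ ^ K) ^ 2 ≤ (p : ℕ) := fun p =>
    hB.trans (by exact_mod_cast hpB p)
  have hθ' : ∀ (k : ℕ) (p : ℕ), k ≤ K → p.Prime → p ∉ S → ∀ n : ℕ,
      (c k : ℂ) * (((X k p * sq ω p ^ k) ^ n + ((X k p * sq ω p ^ k) ^ n)⁻¹) *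
        ch k (nm α ω p ^ n)) = (θ p ^ n + (θ p ^ n)⁻¹) * ((c k : ℂ) * ch k (nm α ω p ^ n)) := by
    intro k p hk hp hpS n
    by_cases hck : c k = 0
    · rw [hck]
      simp
    · rw [hθ k hk hck p hp hpS]
      ring
  obtain ⟨h1, h2⟩ := rel_all (J := Fin (K + 1)) (S := S₀) (S₁ := S')
    (Ix := fun k => Finset.range (((k : ℕ) + 1) + ((k : ℕ) + 1)))
    (β := fun k => dbl ((k : ℕ) + 1) (par α β k (X k)))
    (μ := fun k => gam r e₁ e₂ k (pc (X k)) ++ gam (-r) e₁ e₂ k (pc (X k)))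
    (N := fun k s => N k s * N' k s) (D := fun k s => D k s * D' k s) (c := fun k => c k)
    (M := 2 * (K + 1)) (ρ := r₀ ^ K)
    (fun k => (hL k (by omega)).toLG) hSS
    (fun k => h.dbl_bnd (X k) hSS hr1 (by omega) ht1 ht2 hl)
    (fun k p i hi => h.dbl_le (X k) p.2.1 (fun hh => p.2.2 (hSS hh)) hr1 (ht1 p) (ht2 p)
      (by omega) hi) (fun p => by
      have e1 : ∀ k : Fin (K + 1), (c k : ℂ) *
          ps (Finset.range (((k : ℕ) + 1) + ((k : ℕ) + 1)))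
          (dbl ((k : ℕ) + 1) (par α β k (X k))) p 1 =
          (θ p ^ 1 + (θ p ^ 1)⁻¹) * ((c k * xr k (v p) : ℝ) : ℂ) := by
        intro k
        rw [h.ps_dbl (X k) p.2.1 (hnS p), hθ' k p (by omega) p.2.1 (hnS p) 1, pow_one (nm α ω p),
          ch_eq (h.nm_ne p.2.1 (hnS p)) (hv2 p)]
        push_cast
        ring
      simp only [e1]
      rw [← Finset.mul_sum]
      have h2 := hc (v p) (hv p)
      rw [← Fin.sum_univ_eq_sum_range (fun j => c j * xr j (v p))] at h2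
      rw [← ofReal_sum, h2, ofReal_zero, mul_zero])
    (fun k p _ _ x _ => dbl_sym _ _ p)
  refine ⟨fun p hp hpS n hn y hy hne => ?_, fun z => ?_⟩
  · have hpS2 : p ∉ S := fun hh => hpS (Finset.mem_union_left _ hh)
    have h3 := h1 p hp hpS (n - 1)
    rw [Nat.sub_add_cancel hn] at h3
    have e1 : ∀ k : Fin (K + 1), (c k : ℂ) *
        ps (Finset.range (((k : ℕ) + 1) + ((k : ℕ) + 1)))
        (dbl ((k : ℕ) + 1) (par α β k (X k))) p n =
        (θ p ^ n + (θ p ^ n)⁻¹) * ((c k * xr k y : ℝ) : ℂ) := by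
      intro k
      rw [h.ps_dbl (X k) hp hpS2, hθ' k p (by omega) hp hpS2 n,
        ch_eq (pow_ne_zero _ (h.nm_ne hp hpS2)) hy]
      push_cast
      ring
    simp only [e1] at h3
    rw [← Finset.mul_sum, ← ofReal_sum] at h3
    have h4 := (mul_eq_zero.1 h3).resolve_left hne
    rw [← Fin.sum_univ_eq_sum_range (fun j => c j * xr j y)]
    exact_mod_cast h4
  · rw [← Fin.sum_univ_eq_sum_range (fun j => c j *
      ((mo (gi (gam r e₁ e₂ j (pc (X j)) ++ gam (-r) e₁ e₂ j (pc (X j)))) (1 - z) : ℝ) -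
      mo (gi (gam r e₁ e₂ j (pc (X j)) ++ gam (-r) e₁ e₂ j (pc (X j)))) z))]
    exact h2 z

end

end Pool.Agent.V8H27.NP
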