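import Pool.Agent.V8H27.NP.Rel

/-!
# Rigidity: few absolute values
-/

set_option autoImplicit false

namespace Pool.Agent.V8H27.NP

open Filter Topology Complex Set Pool.Agent.N210.FV Pool.Agent.N210.FW Pool.Agent.N845.SP

/-! ### polynomials of one parity -/

theorem xr_neg (x : ℝ) : ∀ j : ℕ, xr j (-x) = (-1) ^ j * xr j x
  | 0 => by simp [xr]
  | 1 => by simp [xr]
  | j + 2 => by
    rw [xr, xr, xr_neg x (j + 1), xr_neg x j]
    ring

theorem par_coef {K ε : ℕ} (hε : ε ≤ 1) (P : Polynomial ℝ) (hP : P.natDegree ≤ K)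
    (hsym : ∀ x : ℝ, P.eval (-x) = (-1) ^ ε * P.eval x) :
    ∃ c : ℕ → ℝ, (∀ j, j % 2 ≠ ε → c j = 0) ∧
      ∀ x : ℝ, P.eval x = ∑ j ∈ Finset.range (K + 1), c j * xr j x := by
  obtain ⟨c, hc⟩ := exists_coef (R := ℝ) (K + 1) P (fun m hm =>
    Polynomial.coeff_eq_zero_of_natDegree_lt (by omega))
  refine ⟨fun j => if j % 2 = ε then c j else 0, fun j hj => if_neg hj, fun x => ?_⟩
  have h1 : ∀ x : ℝ, P.eval x = ∑ j ∈ Finset.range (K + 1), c j * xr j x := by
    intro x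
    have := hc x
    simpa [Polynomial.aeval_def, Polynomial.eval₂_eq_eval_map] using this
  have h2 : 2 * P.eval x = P.eval x + (-1) ^ ε * P.eval (-x) := by
    rw [hsym, ← mul_assoc, ← pow_add, ← two_mul, pow_mul]
    norm_num
    ring
  have h3 : 2 * ∑ j ∈ Finset.range (K + 1), (if j % 2 = ε then c j else 0) * xr j x =
      P.eval x + (-1) ^ ε * P.eval (-x) := by
    rw [h1 x, h1 (-x), Finset.mul_sum, Finset.mul_sum, ← Finset.sum_add_distrib]
    refine Finset.sum_congr rfl fun j _ => ?_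
    rw [xr_neg]
    have hj : j % 2 = 0 ∨ j % 2 = 1 := by omega
    have e1 : ((-1 : ℝ)) ^ j = (-1) ^ (j % 2) := by
      rw [neg_one_pow_eq_pow_mod_two]
    rw [e1]
    rcases (by omega : ε = 0 ∨ ε = 1) with h | h <;> rcases hj with h' | h' <;> subst h <;>
      rw [h'] <;> norm_num <;> ring
  linarith

theorem exists_Q (W : Finset ℝ) {K : ℕ} (h : 2 * W.card ≤ K ∨ ((0 : ℝ) ∈ W ∧ 2 * W.card ≤ K + 1)) :
    ∃ (ε : ℕ) (c : ℕ → ℝ), ε ≤ 1 ∧ (ε = 1 → (0 : ℝ) ∈ W) ∧ (∀ j, j % 2 ≠ ε → c j = 0) ∧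
      (∀ x : ℝ, ∑ j ∈ Finset.range (K + 1), c j * xr j x = 0 ↔ x ^ 2 ∈ W) := by
  classical
  by_cases h1 : 2 * W.card ≤ K
  · set P : Polynomial ℝ := ∏ w ∈ W, (Polynomial.X ^ 2 - Polynomial.C w) with hP
    have hev : ∀ x : ℝ, P.eval x = ∏ w ∈ W, (x ^ 2 - w) := by
      intro x
      rw [hP, Polynomial.eval_prod]
      simp
    obtain ⟨c, hc, hc2⟩ := par_coef (K := K) (ε := 0) (by omega) P (by
      rw [hP]
      refine (Polynomial.natDegree_prod_le _ _).trans ?_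
      refine (Finset.sum_le_card_nsmul W _ 2 fun w _ => ?_).trans ?_
      · exact Polynomial.natDegree_X_pow_sub_C.le
      · rw [smul_eq_mul]
        omega) (fun x => by
      rw [hev, hev]
      simp)
    refine ⟨0, c, by omega, by omega, hc, fun x => ?_⟩
    rw [← hc2, hev, Finset.prod_eq_zero_iff]
    constructor
    · rintro ⟨w, hw, h2⟩
      rwa [sub_eq_zero.1 h2]
    · intro h2
      exact ⟨_, h2, sub_self _⟩
  · obtain ⟨h0, h2⟩ := h.resolve_left h1
    set P : Polynomial ℝ := Polynomial.X * ∏ w ∈ W.erase 0, (Polynomial.X ^ 2 - Polynomial.C w)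
      with hP
    have hev : ∀ x : ℝ, P.eval x = x * ∏ w ∈ W.erase 0, (x ^ 2 - w) := by
      intro x
      rw [hP, Polynomial.eval_mul, Polynomial.eval_prod]
      simp
    have hcard : (W.erase 0).card = W.card - 1 := Finset.card_erase_of_mem h0
    have hpos : 0 < W.card := Finset.card_pos.2 ⟨0, h0⟩
    obtain ⟨c, hc, hc2⟩ := par_coef (K := K) (ε := 1) (by omega) P (by
      rw [hP]
      refine Polynomial.natDegree_mul_le.trans ?_
      rw [Polynomial.natDegree_X]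
      have h3 : (∏ w ∈ W.erase 0, (Polynomial.X ^ 2 - Polynomial.C w)).natDegree ≤
          2 * (W.card - 1) := by
        refine (Polynomial.natDegree_prod_le _ _).trans ?_
        refine (Finset.sum_le_card_nsmul _ _ 2 fun w _ => ?_).trans ?_
        · exact Polynomial.natDegree_X_pow_sub_C.le
        · rw [smul_eq_mul, hcard]
          omega
      omega) (fun x => by
      rw [hev, hev]
      simp)
    refine ⟨1, c, le_rfl, fun _ => h0, hc, fun x => ?_⟩
    rw [← hc2, hev, mul_eq_zero, Finset.prod_eq_zero_iff]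
    constructor
    · rintro (h3 | ⟨w, hw, h3⟩)
      · rw [h3]
        simpa using h0
      · rw [sub_eq_zero.1 h3]
        exact (Finset.mem_erase.1 hw).2
    · intro h3
      by_cases h4 : x = 0
      · exact Or.inl h4
      · exact Or.inr ⟨_, Finset.mem_erase.2 ⟨pow_ne_zero 2 h4, h3⟩, sub_self _⟩

/-! ### the characters -/

theorem chLevel {m q : ℕ} [NeZero m] [NeZero q] (hd : q ∣ m) (χ : DirichletCharacter ℂ q) {p : ℕ}
    (hp : p.Prime) (h : p ∉ m.primeFactors) : DirichletCharacter.changeLevel hd χ p = χ p := by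
  have hu : IsCoprime (p : ℤ) (m : ℤ) := by
    rw [Nat.isCoprime_iff_coprime, hp.coprime_iff_not_dvd]
    exact fun h1 => h (Nat.mem_primeFactors.2 ⟨hp, h1, NeZero.ne m⟩)
  have := DirichletCharacter.changeLevel_eq_cast_of_dvd' χ hd hu
  exact_mod_cast this

/-- `ω^{-j} ψ` -/
noncomputable def Xc {M q : ℕ} (ω : DirichletCharacter ℂ M) (ψ : DirichletCharacter ℂ q) (j : ℕ) :
    DirichletCharacter ℂ (M * q) :=
  (DirichletCharacter.changeLevel (Nat.dvd_mul_right M q) ω)⁻¹ ^ j *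
    DirichletCharacter.changeLevel (Nat.dvd_mul_left q M) ψ

section

variable {S : Finset ℕ} {α β : ℕ → ℂ} {M : ℕ} [NeZero M] {ω : DirichletCharacter ℂ M}

theorem Dat.Xc_apply (h : Dat S α β ω) {q : ℕ} [NeZero q] (ψ : DirichletCharacter ℂ q) (j : ℕ)
    {p : ℕ} (hp : p.Prime) (hpS : p ∉ S) : Xc ω ψ j p = (ω p)⁻¹ ^ j * ψ p := by
  have : NeZero (M * q) := ⟨mul_ne_zero (NeZero.ne M) (NeZero.ne q)⟩
  have hM : ¬ p ∣ M := fun h1 => hpS (h.ram p hp h1)
  by_cases hq : p ∣ q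
  · have h1 : ψ p = 0 := by
      have h2 : ¬ IsUnit ((p : ℕ) : ZMod q) := by
        rw [ZMod.isUnit_iff_coprime, hp.coprime_iff_not_dvd, not_not]
        exact hq
      exact MulChar.map_nonunit ψ h2
    have h3 : Xc ω ψ j p = 0 := by
      have h2 : ¬ IsUnit ((p : ℕ) : ZMod (M * q)) := by
        rw [ZMod.isUnit_iff_coprime, hp.coprime_iff_not_dvd, not_not]
        exact Dvd.dvd.mul_left hq M
      exact MulChar.map_nonunit (Xc ω ψ j) h2
    rw [h1, h3, mul_zero]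
  · have hp2 : p ∉ (M * q).primeFactors := by
      intro h1
      rcases (hp.dvd_mul).1 (Nat.dvd_of_mem_primeFactors h1) with h2 | h2
      · exact hM h2
      · exact hq h2
    have hu : IsUnit ((p : ℕ) : ZMod (M * q)) := by
      rw [ZMod.isUnit_iff_coprime, hp.coprime_iff_not_dvd, hp.dvd_mul]
      tauto
    unfold Xc
    rw [MulChar.mul_apply, chLevel _ ψ hp hp2]
    congr 1
    have h4 : ((DirichletCharacter.changeLevel (Nat.dvd_mul_right M q) ω)⁻¹ ^ j) (p : ZMod (M * q)) =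
        ((DirichletCharacter.changeLevel (Nat.dvd_mul_right M q) ω)⁻¹ (p : ZMod (M * q))) ^ j := by
      rcases Nat.eq_zero_or_pos j with h0 | h0
      · rw [h0, pow_zero, pow_zero]
        exact MulChar.one_apply hu
      · exact MulChar.pow_apply' _ h0.ne' _
    rw [h4, MulChar.inv_apply_eq_inv', chLevel _ ω hp hp2]

theorem pc_spec {q : ℕ} (χ : DirichletCharacter ℂ q) : ((-1 : ℂ)) ^ pc χ = χ (-1) := by
  unfold pc
  rcases χ.even_or_odd with h | h
  · have h' : χ (-1) = 1 := h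
    rw [if_pos h', h', pow_zero]
  · have h' : χ (-1) = -1 := h
    rw [h', if_neg (by norm_num), pow_one]

theorem pc_lt {q : ℕ} (χ : DirichletCharacter ℂ q) : pc χ ≤ 1 := by
  unfold pc
  split_ifs <;> omega

theorem changeLevel_neg_one {m q : ℕ} [NeZero m] (hd : q ∣ m) (χ : DirichletCharacter ℂ q) :
    DirichletCharacter.changeLevel hd χ (-1) = χ (-1) := by
  have hu : IsCoprime (-1 : ℤ) (m : ℤ) := isCoprime_one_left.neg_left
  have := DirichletCharacter.changeLevel_eq_cast_of_dvd' χ hd hu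
  exact_mod_cast this

theorem Xc_neg_one {q : ℕ} [NeZero q] (ψ : DirichletCharacter ℂ q) (j : ℕ) :
    Xc ω ψ j (-1) = ω (-1) ^ j * ψ (-1) := by
  have : NeZero (M * q) := ⟨mul_ne_zero (NeZero.ne M) (NeZero.ne q)⟩
  have hu : IsUnit (-1 : ZMod (M * q)) := isUnit_one.neg
  unfold Xc
  rw [MulChar.mul_apply, changeLevel_neg_one]
  congr 1
  have h4 : ((DirichletCharacter.changeLevel (Nat.dvd_mul_right M q) ω)⁻¹ ^ j) (-1 : ZMod (M * q)) =
      ((DirichletCharacter.changeLevel (Nat.dvd_mul_right M q) ω)⁻¹ (-1 : ZMod (M * q))) ^ j := by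
    rcases Nat.eq_zero_or_pos j with h0 | h0
    · rw [h0, pow_zero, pow_zero]
      exact MulChar.one_apply hu
    · exact MulChar.pow_apply' _ h0.ne' _
  rw [h4, MulChar.inv_apply_eq_inv', changeLevel_neg_one]
  rcases ω.even_or_odd with h | h
  · have h' : ω (-1) = 1 := h
    rw [h']
    norm_num
  · have h' : ω (-1) = -1 := h
    rw [h']
    norm_num

/-! ### infinity -/

/-- the sum of the signs of the gamma factor -/
def sg (e₁ e₂ k f : ℕ) : ℤ := ∑ i ∈ Finset.range (k + 1), (-1) ^ ((k - i) * e₁ + i * e₂ + f)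

theorem sg_same {e₁ e₂ : ℕ} (h : e₁ % 2 = e₂ % 2) (k f : ℕ) :
    sg e₁ e₂ k f = (-1) ^ (k * e₁ + f) * ((k : ℤ) + 1) := by
  unfold sg
  have : ∀ i ∈ Finset.range (k + 1), ((-1 : ℤ)) ^ ((k - i) * e₁ + i * e₂ + f) =
      (-1) ^ (k * e₁ + f) := by
    intro i hi
    rw [Finset.mem_range] at hi
    rw [neg_one_pow_eq_pow_mod_two, neg_one_pow_eq_pow_mod_two (n := k * e₁ + f)]
    congr 1
    have e : k * e₁ = (k - i) * e₁ + i * e₁ := by
      rw [← add_mul, Nat.sub_add_cancel (by omega)]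
    rw [e]
    have h2 : i * e₂ % 2 = i * e₁ % 2 := by
      rw [Nat.mul_mod, ← h, ← Nat.mul_mod]
    omega
  rw [Finset.sum_congr rfl this]
  simp
  ring

theorem sg_diff {e₁ e₂ : ℕ} (h : e₁ % 2 ≠ e₂ % 2) (k f : ℕ) :
    sg e₁ e₂ k f = (-1) ^ f * if k % 2 = 0 then 1 else 0 := by
  unfold sg
  have h1 : ∀ i ∈ Finset.range (k + 1), ((-1 : ℤ)) ^ ((k - i) * e₁ + i * e₂ + f) =
      (-1) ^ f * ((-1) ^ (k * e₁) * (-1) ^ i) := by
    intro i hi
    rw [Finset.mem_range] at hi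
    rw [← pow_add, ← pow_add, neg_one_pow_eq_pow_mod_two,
      neg_one_pow_eq_pow_mod_two (n := f + (k * e₁ + i))]
    congr 1
    have e : k * e₁ = (k - i) * e₁ + i * e₁ := by
      rw [← add_mul, Nat.sub_add_cancel (by omega)]
    rw [e]
    have h2 : (i * e₂ + i * e₁) % 2 = i % 2 := by
      rw [← mul_add, Nat.mul_mod]
      have : (e₂ + e₁) % 2 = 1 := by omega
      rw [this]
      omega
    omega
  rw [Finset.sum_congr rfl h1, ← Finset.mul_sum, ← Finset.mul_sum]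
  congr 1
  have h2 : ∑ i ∈ Finset.range (k + 1), ((-1 : ℤ)) ^ i = if k % 2 = 0 then 1 else 0 := by
    rw [neg_one_geom_sum]
    split_ifs with h3 h4 h4
    · rw [Nat.even_iff] at h3
      omega
    · rfl
    · rfl
    · rw [Nat.even_iff] at h3
      omega
  rw [h2]
  split_ifs with h3
  · rw [mul_one]
    have : Even (k * e₁) := (Nat.even_iff.2 h3).mul_right e₁
    rw [this.neg_one_pow]
  · rw [mul_zero]

theorem gam_pt (r : ℂ) (e₁ e₂ k f : ℕ) (z : ℂ) :
    ((mo (gi (gam r e₁ e₂ k f ++ gam (-r) e₁ e₂ k f)) (1 - z) : ℝ) -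
      mo (gi (gam r e₁ e₂ k f ++ gam (-r) e₁ e₂ k f)) z) -
    (mo (gi (gam r e₁ e₂ k f ++ gam (-r) e₁ e₂ k f)) (1 - (z - 2)) -
      mo (gi (gam r e₁ e₂ k f ++ gam (-r) e₁ e₂ k f)) (z - 2)) =
      2 * (pt r k z + pt r k (z - 1)) := by
  classical
  rw [gi_diff2, List.map_append, List.sum_append]
  unfold gam
  rw [List.map_map, List.map_map, list_sum_range, list_sum_range]
  have h1 := pt_refl r k 1 z
  have h2 := pt_refl r k 2 z
  have e1 : z - 1 + 1 = z := by ring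
  have e2 : z - 2 + 1 = z - 1 := by ring
  rw [e1] at h1
  rw [e2] at h2
  have h3 : pt r k z = ∑ i ∈ Finset.range (k + 1),
      if z = 1 + r * ((k : ℂ) - 2 * i) then (1 : ℝ) else 0 := by
    unfold pt
    rfl
  have h4 : pt r k (z - 1) = ∑ i ∈ Finset.range (k + 1),
      if z = 2 + r * ((k : ℂ) - 2 * i) then (1 : ℝ) else 0 := by
    unfold pt
    refine Finset.sum_congr rfl fun i _ => ?_
    have : (z - 1 = 1 + r * ((k : ℂ) - 2 * i)) = (z = 2 + r * ((k : ℂ) - 2 * i)) := by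
      rw [eq_iff_iff]
      constructor
      · intro h
        linear_combination h
      · intro h
        rw [h]
        ring
    simp only [this]
  have h5 : 2 * (pt r k z + pt r k (z - 1)) = pt r k z + pt r k (z - 1) +
      (pt r k z + pt r k (z - 1)) := by ring
  rw [h5]
  conv_rhs =>
    arg 1
    rw [h3, h4]
  conv_rhs =>
    arg 2
    rw [← h1, ← h2]
  rw [← Finset.sum_add_distrib, ← Finset.sum_add_distrib, ← Finset.sum_add_distrib,
    ← Finset.sum_add_distrib]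
  refine Finset.sum_congr rfl fun i _ => ?_
  simp only [Function.comp_apply]
  rcases (by omega : ((k - i) * e₁ + i * e₂ + f) % 2 = 0 ∨ ((k - i) * e₁ + i * e₂ + f) % 2 = 1)
    with h | h
  · rw [h]
    have a1 : (z = 1 + (r * ((k : ℂ) - 2 * i) + ((0 : ℕ) : ℂ))) = (z = 1 + r * ((k : ℂ) - 2 * i)) := by
      rw [Nat.cast_zero, add_zero]
    have a2 : (z = 2 - (r * ((k : ℂ) - 2 * i) + ((0 : ℕ) : ℂ))) = (z = 2 - r * ((k : ℂ) - 2 * i)) := by
      rw [Nat.cast_zero, add_zero]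
    have a3 : (z = 1 + (-r * ((k : ℂ) - 2 * i) + ((0 : ℕ) : ℂ))) =
        (z = 1 - r * ((k : ℂ) - 2 * i)) := by
      congr 1
      push_cast
      ring
    have a4 : (z = 2 - (-r * ((k : ℂ) - 2 * i) + ((0 : ℕ) : ℂ))) =
        (z = 2 + r * ((k : ℂ) - 2 * i)) := by
      rw [Nat.cast_zero, add_zero, neg_mul, sub_neg_eq_add]
    simp only [a1, a2, a3, a4]
    ring
  · rw [h]
    have a1 : (z = 1 + (r * ((k : ℂ) - 2 * i) + ((1 : ℕ) : ℂ))) = (z = 2 + r * ((k : ℂ) - 2 * i)) := by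
      congr 1
      push_cast
      ring
    have a2 : (z = 2 - (r * ((k : ℂ) - 2 * i) + ((1 : ℕ) : ℂ))) = (z = 1 - r * ((k : ℂ) - 2 * i)) := by
      congr 1
      push_cast
      ring
    have a3 : (z = 1 + (-r * ((k : ℂ) - 2 * i) + ((1 : ℕ) : ℂ))) =
        (z = 2 - r * ((k : ℂ) - 2 * i)) := by
      congr 1
      push_cast
      ring
    have a4 : (z = 2 - (-r * ((k : ℂ) - 2 * i) + ((1 : ℕ) : ℂ))) =
        (z = 1 + r * ((k : ℂ) - 2 * i)) := by
      congr 1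
      push_cast
      ring
    simp only [a1, a2, a3, a4]
    ring

/-- the archimedean parameter vanishes -/
theorem r_zero {r : ℂ} {e₁ e₂ K : ℕ} {f : ℕ → ℕ} {c : ℕ → ℝ}
    (h : ∀ z : ℂ, ∑ j ∈ Finset.range (K + 1), c j *
      ((mo (gi (gam r e₁ e₂ j (f j) ++ gam (-r) e₁ e₂ j (f j))) (1 - z) : ℝ) -
      mo (gi (gam r e₁ e₂ j (f j) ++ gam (-r) e₁ e₂ j (f j))) z) = 0)
    (hc : ∃ x : ℝ, ∑ j ∈ Finset.range (K + 1), c j * xr j x ≠ 0) : r = 0 := by
  by_contra hr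
  have h1 : ∀ z : ℂ, ∑ k : Fin (K + 1), c k * (pt r k z + pt r k (z - 1)) = 0 := by
    intro z
    have h2 := h z
    have h3 := h (z - 2)
    have h4 : ∑ j ∈ Finset.range (K + 1), c j * (2 * (pt r j z + pt r j (z - 1))) = 0 := by
      rw [← sub_eq_zero.2 (h2.trans h3.symm), ← Finset.sum_sub_distrib]
      refine Finset.sum_congr rfl fun j _ => ?_
      rw [← gam_pt r e₁ e₂ j (f j) z]
      ring
    have h5 : ∑ j ∈ Finset.range (K + 1), c j * (2 * (pt r j z + pt r j (z - 1))) =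
        2 * ∑ j ∈ Finset.range (K + 1), c j * (pt r j z + pt r j (z - 1)) := by
      rw [Finset.mul_sum]
      refine Finset.sum_congr rfl fun j _ => ?_
      ring
    rw [h5] at h4
    rw [Fin.sum_univ_eq_sum_range (fun j => c j * (pt r j z + pt r j (z - 1)))]
    linarith
  have h2 := weights_zero (c := fun k : Fin (K + 1) => c k) hr h1
  obtain ⟨x, hx⟩ := hc
  apply hx
  refine Finset.sum_eq_zero fun j hj => ?_
  rw [Finset.mem_range] at hj
  have := congrFun h2 ⟨j, hj⟩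
  simp only [Pi.zero_apply] at this
  rw [this, zero_mul]

/-- the relation for the signs -/
theorem sg_rel {e₁ e₂ K : ℕ} {f : ℕ → ℕ} {c : ℕ → ℝ}
    (h : ∀ z : ℂ, ∑ j ∈ Finset.range (K + 1), c j *
      ((mo (gi (gam 0 e₁ e₂ j (f j) ++ gam (-0) e₁ e₂ j (f j))) (1 - z) : ℝ) -
      mo (gi (gam 0 e₁ e₂ j (f j) ++ gam (-0) e₁ e₂ j (f j))) z) = 0) :
    ∑ j ∈ Finset.range (K + 1), c j * (sg e₁ e₂ j (f j) : ℝ) = 0 := by
  have hm : ∀ j z, ((mo (gi (gam 0 e₁ e₂ j (f j) ++ gam (-0) e₁ e₂ j (f j))) z : ℕ) : ℝ) =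
      2 * ∑ i ∈ Finset.range (j + 1),
        ((g1 (z + (((j - i) * e₁ + i * e₂ + f j) % 2 : ℕ)) : ℕ) : ℝ) := by
    intro j z
    rw [mo_gi, List.map_append, List.sum_append, neg_zero, ← two_mul]
    push_cast
    congr 1
    unfold gam
    rw [List.map_map, List.map_map, list_sum_range]
    refine Finset.sum_congr rfl fun i _ => ?_
    simp
  have h1 := h 1
  have h2 := h 2
  simp only [hm] at h1 h2
  have h3 : ∀ j ∈ Finset.range (K + 1), c j * (sg e₁ e₂ j (f j) : ℝ) =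
      (1 / 2) * (c j * ((2 * ∑ i ∈ Finset.range (j + 1),
        ((g1 (1 - 1 + (((j - i) * e₁ + i * e₂ + f j) % 2 : ℕ)) : ℕ) : ℝ)) -
        2 * ∑ i ∈ Finset.range (j + 1),
        ((g1 (1 + (((j - i) * e₁ + i * e₂ + f j) % 2 : ℕ)) : ℕ) : ℝ))) -
      (1 / 2) * (c j * ((2 * ∑ i ∈ Finset.range (j + 1),
        ((g1 (1 - 2 + (((j - i) * e₁ + i * e₂ + f j) % 2 : ℕ)) : ℕ) : ℝ)) -
        2 * ∑ i ∈ Finset.range (j + 1),
        ((g1 (2 + (((j - i) * e₁ + i * e₂ + f j) % 2 : ℕ)) : ℕ) : ℝ))) := by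
    intro j _
    have e : (sg e₁ e₂ j (f j) : ℝ) = ((∑ i ∈ Finset.range (j + 1),
        ((g1 (1 - 1 + (((j - i) * e₁ + i * e₂ + f j) % 2 : ℕ)) : ℕ) : ℝ)) -
        ∑ i ∈ Finset.range (j + 1),
        ((g1 (1 + (((j - i) * e₁ + i * e₂ + f j) % 2 : ℕ)) : ℕ) : ℝ)) -
        ((∑ i ∈ Finset.range (j + 1),
        ((g1 (1 - 2 + (((j - i) * e₁ + i * e₂ + f j) % 2 : ℕ)) : ℕ) : ℝ)) -
        ∑ i ∈ Finset.range (j + 1),
        ((g1 (2 + (((j - i) * e₁ + i * e₂ + f j) % 2 : ℕ)) : ℕ) : ℝ)) := by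
      unfold sg
      rw [← Finset.sum_sub_distrib, ← Finset.sum_sub_distrib, ← Finset.sum_sub_distrib]
      push_cast
      refine Finset.sum_congr rfl fun i _ => ?_
      rw [neg_one_pow_eq_pow_mod_two]
      rcases (by omega : ((j - i) * e₁ + i * e₂ + f j) % 2 = 0 ∨
        ((j - i) * e₁ + i * e₂ + f j) % 2 = 1) with h | h
      · rw [h]
        have a1 : g1 (1 - 1 + ((0 : ℕ) : ℂ)) = 1 := by
          rw [show (1 - 1 + ((0 : ℕ) : ℂ)) = 0 by norm_num, g1_zero]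
        have a2 : g1 (1 + ((0 : ℕ) : ℂ)) = 0 := g1_pos (by norm_num)
        have a3 : g1 (1 - 2 + ((0 : ℕ) : ℂ)) = 0 := by
          rw [show (1 - 2 + ((0 : ℕ) : ℂ)) = -1 by norm_num, g1_neg_one]
        have a4 : g1 (2 + ((0 : ℕ) : ℂ)) = 0 := g1_pos (by norm_num)
        rw [a1, a2, a3, a4]
        norm_num
      · rw [h]
        have a1 : g1 (1 - 1 + ((1 : ℕ) : ℂ)) = 0 := g1_pos (by norm_num)
        have a2 : g1 (1 + ((1 : ℕ) : ℂ)) = 0 := g1_pos (by norm_num)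
        have a3 : g1 (1 - 2 + ((1 : ℕ) : ℂ)) = 1 := by
          rw [show (1 - 2 + ((1 : ℕ) : ℂ)) = 0 by norm_num, g1_zero]
        have a4 : g1 (2 + ((1 : ℕ) : ℂ)) = 0 := g1_pos (by norm_num)
        rw [a1, a2, a3, a4]
        norm_num
    rw [e]
    ring
  rw [Finset.sum_congr rfl h3, Finset.sum_sub_distrib, ← Finset.mul_sum, ← Finset.mul_sum, h1, h2]
  ring

end

end Pool.Agent.V8H27.NP
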